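import Pool.Agent.Lib.DI.Defs
import Pool.Agent.Lib.FW.RDefs

/-!
# Theorem DT (`p = 3`): definitions

`K` imaginary quadratic, `3` split: `O = ℤ[w]`, `w ^ 2 = t w - 3 k`, `t ∈ {1, 4}`, discriminant `-D`,
`D = 12 k - t ^ 2`; `3 = 𝔭 𝔭̄`, `𝔭 = (3, w)`, `𝔭̄ = (3, 1 - w)`. For a nonzero ideal `b` of `O`: the lattice
`Lam b = b⁻¹`. The functions on `ℂ / Lam b`: `wpC b`, `wdC b`, `XC b`, `KC b`; the numbers `AC b` (`= Al`),
`rhC b` (`= ρ`), `dlC b` (`= δ`).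
`X = XC b` is the coordinate of `Y² + Al X Y + Y = X³` with `X(S) = 0`, `S` of order `𝔭̄`.

Moduli are ideals `n` of `O` (not integers). The conductor is `f 𝔭̄`, with `f` prime to `3` and divisible
by `4`; the functions `fr`, `gC`, `Tc`, `ThM`, `etaM` are used for `b` prime to `f 𝔭̄`.
-/

set_option autoImplicit false

open scoped Pointwise Topology
open Filter

noncomputable section

namespace Pool.Agent.DT

open Pool.Agent.MuZ Pool.Agent.FW NumberField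
open Pool.Agent.DI (io ofC io_inj exists_io io_ofC ofC_io VP MP UP TP ex)

/-! ## The ring `O` -/

/-- The imaginary quadratic fields in which `3` splits. -/
class SqT (k t : ℕ) : Prop where
  out : (t = 1 ∧ 0 < k ∧ Squarefree (12 * k - 1)) ∨
    (t = 4 ∧ 2 ≤ k ∧ Squarefree (3 * k - 4) ∧ (3 * k - 4) % 4 ≠ 3)

/-- The discriminant is `- D`. -/
def Dk (k t : ℕ) : ℕ := 12 * k - t ^ 2

/-- The ring `O = ℤ[w]`, `w ^ 2 = t w - 3 k`. -/
abbrev OO (k t : ℕ) : Type := QuadraticAlgebra ℤ (-(3 * (k : ℤ))) (t : ℤ)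

variable {k t : ℕ}

/-- `w`. -/
def wI (k t : ℕ) : OO k t := ⟨0, 1⟩

/-- `√-D = 2 w - t`. -/
def sD (k t : ℕ) : OO k t := ⟨-t, 2⟩

/-- Complex conjugation on `O`. -/
def cjO (v : OO k t) : OO k t := ⟨v.re + t * v.im, -v.im⟩

/-- The norm. -/
def Nm (v : OO k t) : ℤ := v.re ^ 2 + t * v.re * v.im + 3 * k * v.im ^ 2

/-- The quadratic character of `K` (used only for `d` odd and prime to `D`). -/
def eps (k t : ℕ) (d : ℤ) : ℤ := d.sign * jacobiSym (-(Dk k t : ℤ)) d.natAbs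

/-- The principal ideal. -/
abbrev sp (v : OO k t) : Ideal (OO k t) := Ideal.span {v}

/-- The principal ideal of an integer. -/
abbrev sN (k t N : ℕ) : Ideal (OO k t) := Ideal.span {(N : OO k t)}

/-- `𝔭 = (3, w)`. -/
def pp (k t : ℕ) : Ideal (OO k t) := Ideal.span {3, wI k t}

/-- `𝔭̄ = (3, 1 - w)`. -/
def ppb (k t : ℕ) : Ideal (OO k t) := Ideal.span {3, 1 - wI k t}

/-- The norm of an ideal (`0` for the zero ideal). -/
def NI (b : Ideal (OO k t)) : ℕ := Nat.card (OO k t ⧸ b)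

/-- `b` is prime to the ideal `n`. -/
def PrI (b n : Ideal (OO k t)) : Prop := b ⊔ n = ⊤

/-- The conjugate ideal. -/
def cjI (b : Ideal (OO k t)) : Ideal (OO k t) := Ideal.span (cjO '' (b : Set (OO k t)))

/-- `a` and `a'` have the same class in the ray class group modulo the ideal `n`. -/
def Ray (n a a' : Ideal (OO k t)) : Prop :=
  ∃ α α' : OO k t, α ≠ 0 ∧ α' ≠ 0 ∧ PrI (sp α) n ∧ PrI (sp α') n ∧ α - α' ∈ n ∧
    sp α * a = sp α' * a'

/-! ## The complex side -/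

/-- `w` as a complex number. -/
def wC (k t : ℕ) : ℂ := ⟨t / 2, √(Dk k t : ℝ) / 2⟩

/-- `v` as a complex number. -/
def toC (v : OO k t) : ℂ := v.re + v.im * wC k t

theorem toC_apply (v : OO k t) : toC v = v.re + v.im * wC k t := rfl

/-- The lattice `b⁻¹ = {z | b z ⊆ O}`. -/
def Lam (b : Ideal (OO k t)) : Set ℂ := {z | ∀ v ∈ b, ∃ u : OO k t, toC v * z = toC u}

/-- `z` is a torsion point: `z ∈ K`. -/
def Tor (k t : ℕ) (z : ℂ) : Prop := ∃ (v : OO k t) (n : ℕ), 0 < n ∧ z = toC v / n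

/-- A pair of periods of the lattice `Lam b`. -/
def LP (b : Ideal (OO k t)) : PeriodPair := by
  classical
  exact if h : ∃ L : PeriodPair, (L.lattice : Set ℂ) = Lam b then h.choose else DI.LO

/-- `℘(z; Lam b)`. -/
def wpC (b : Ideal (OO k t)) (z : ℂ) : ℂ := (LP b).weierstrassP z

/-- `℘'(z; Lam b)`. -/
def wdC (b : Ideal (OO k t)) (z : ℂ) : ℂ := (LP b).derivWeierstrassP z

/-- `℘''(z; Lam b)`, `z` not in `Lam b`. -/
def w2C (b : Ideal (OO k t)) (z : ℂ) : ℂ := 6 * wpC b z ^ 2 - (LP b).g₂ / 2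

/-- A generator of `Lam (m b)` over `Lam b`: an element of `Lam (m b)` which is not in `Lam (m' b)` for
every proper divisor `m'` of `m`. -/
def gen (m b : Ideal (OO k t)) : ℂ := by
  classical
  exact if h : ∃ z ∈ Lam (m * b), ∀ m' : Ideal (OO k t), m < m' → z ∉ Lam (m' * b) then h.choose else 0

/-- The point `T` of order `𝔭`. -/
def ptT (b : Ideal (OO k t)) : ℂ := gen (pp k t) b

/-- A point `t` of order `𝔭̄²`. -/
def ptt (b : Ideal (OO k t)) : ℂ := gen (ppb k t ^ 2) b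

/-- The point `S = 3 t` of order `𝔭̄`. -/
def ptS (b : Ideal (OO k t)) : ℂ := 3 * ptt b

/-- `r²`, where `r³ = ℘'(S)`: with `p₁, p₂, p₃ = ℘(t) - ℘(S), ℘(t + S) - ℘(S), ℘(t - S) - ℘(S)` it is
`p₂ (p₃ - p₁)/(p₃ - p₂)`. -/
def r2 (b : Ideal (OO k t)) : ℂ :=
  (wpC b (ptt b + ptS b) - wpC b (ptS b)) * (wpC b (ptt b - ptS b) - wpC b (ptt b)) /
    (wpC b (ptt b - ptS b) - wpC b (ptt b + ptS b))

/-- The coordinate `X = (℘(z) - ℘(S))/r²`. -/
def XC (b : Ideal (OO k t)) (z : ℂ) : ℂ := (wpC b z - wpC b (ptS b)) / r2 b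

/-- The parameter `Al = ℘''(S) r²/℘'(S)²`. -/
def AC (b : Ideal (OO k t)) : ℂ := w2C b (ptS b) * r2 b / wdC b (ptS b) ^ 2

/-- `ρ(b) = - 3 X(T)` for the lattice `Lam (𝔭̄ b)`. -/
def rhC (b : Ideal (OO k t)) : ℂ := -3 * XC (ppb k t * b) (ptT (ppb k t * b))

/-- `δ = Al + 3/X(T)`, `δ³ = Al³ - 27`. -/
def dlC (b : Ideal (OO k t)) : ℂ := AC b + 3 / XC b (ptT b)

/-- The regularised series `K_t(z)` of the lattice `Lam b`. -/
def KtC (b : Ideal (OO k t)) (s : ℝ) (z : ℂ) : ℂ :=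
  ∑' v : (LP b).lattice, (z + v)⁻¹ * (Real.exp (-s * ‖z + v‖ ^ 2) : ℝ)

/-- The periodic function `K(z) = lim K_t(z)` of the lattice `Lam b`. -/
def KC (b : Ideal (OO k t)) (z : ℂ) : ℂ := limUnder (𝓝[>] (0 : ℝ)) (fun s => KtC b s z)

/-! ## The algebraic side -/

/-- `w` in `Om`. -/
def wO (k t : ℕ) : Om := ofC (wC k t)

/-- The embedding `O → Om`. -/
def toO (v : OO k t) : Om := v.re + v.im * wO k t

/-- The field `K = ℚ(√-D)`. -/
def KQ (k t : ℕ) : IntermediateField ℚ Om := IntermediateField.adjoin ℚ {wO k t}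

/-- The group `Gal(Om/K)`. -/
def GK (k t : ℕ) : Subgroup Gal(Om/ℚ) := (KQ k t).fixingSubgroup

/-- The algebraic number `X(z)`. -/
def xO (b : Ideal (OO k t)) (z : ℂ) : Om := ofC (XC b z)

/-- The algebraic number `Al`. -/
def aO (b : Ideal (OO k t)) : Om := ofC (AC b)

/-- The algebraic number `ρ`. -/
def rhO (b : Ideal (OO k t)) : Om := ofC (rhC b)

/-- The algebraic number `δ`. -/
def dlO (b : Ideal (OO k t)) : Om := ofC (dlC b)

/-- `P` is a nonzero prime of `ZZ`. -/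
def Npr (P : Ideal ZZ) : Prop := P.IsPrime ∧ P ≠ ⊥

/-- `P` is above `𝔭 = (3, w)`. -/
def AbP (k t : ℕ) (P : Ideal ZZ) : Prop := Npr P ∧ MP P 3 ∧ MP P (wO k t)

/-- `P` is above `𝔭̄ = (3, 1 - w)`. -/
def AbPb (k t : ℕ) (P : Ideal ZZ) : Prop := Npr P ∧ MP P 3 ∧ MP P (1 - wO k t)

/-- `τ` is a Frobenius element at `Q` for the exponent `l`. -/
def Fro (Q : Ideal ZZ) (l : ℕ) (τ : Gal(Om/ℚ)) : Prop := ∀ b : ZZ, τ • b - b ^ l ∈ Q

/-- **The Galois action.** `τ` acts on the `n`-torsion of all the curves `ℂ / Lam b` as the identity map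
from `ℂ / Lam b` to `ℂ / Lam (a b)`. -/
structure Psi (τ : Gal(Om/ℚ)) (n a : Ideal (OO k t)) : Prop where
  ne : a ≠ ⊥
  cop : PrI a n
  aa : ∀ b : Ideal (OO k t), b ≠ ⊥ → τ (aO b) = aO (a * b)
  xx : ∀ b : Ideal (OO k t), b ≠ ⊥ → ∀ z ∈ Lam (n * b), τ (xO b z) = xO (a * b) z

/-! ## The framing and the smoothed functions -/

/-- The point `S₀ = w/3` of order `𝔭̄` on all the curves `ℂ / Lam b`, `b` prime to `𝔭̄`. -/
def S0 (k t : ℕ) : ℂ := wC k t / 3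

/-- The framing `fr(b) = ℘''(S₀)/℘'(S₀)` of the lattice `Lam b`, `b` prime to `𝔭̄`. -/
def fr (b : Ideal (OO k t)) : ℂ := by
  classical
  exact if b ≠ ⊥ ∧ PrI b (ppb k t) then w2C b (S0 k t) / wdC b (S0 k t) else 0

/-- The algebraic number `fr(b')/fr(b)`. -/
def rO (b b' : Ideal (OO k t)) : Om := ofC (fr b' / fr b)

/-- The function `W = ℘'(z)/℘'(S₀)`, `W² = 4 X³ + (Al X + 1)²`, an element of `Om` for torsion points. -/
def vO (b : Ideal (OO k t)) (z : ℂ) : Om := ofC (wdC b z / wdC b (S0 k t))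

/-- The smoothed function `g(b, z) = (K(z; Lam (m b)) - N m K(z; Lam b))/fr(b)`. -/
def gC (m b : Ideal (OO k t)) (z : ℂ) : ℂ := (KC (m * b) z - NI m * KC b z) / fr b

/-- The algebraic number `g(b, z)`. -/
def gO (m b : Ideal (OO k t)) (z : ℂ) : Om := ofC (gC m b z)

/-! ## Theta series -/

/-- The conductor `f 𝔭̄`. -/
def cnd (k t f : ℕ) : Ideal (OO k t) := sN k t f * ppb k t

/-- The base point `v₀ = S₀ + 1/f`, of order `f 𝔭̄`. -/
def v0 (k t f : ℕ) : ℂ := S0 k t + 1 / f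

/-- The theta series `∑ v⁻¹ e(3 f² N b |v|² z)`, `v` in `a v₀ + Lam b`. -/
def Tc (f : ℕ) (b : Ideal (OO k t)) (a : ℤ) (z : ℂ) : ℂ :=
  ∑' v : (LP b).lattice, ((a : ℂ) * v0 k t f + v)⁻¹ *
    ex (3 * f ^ 2 * NI b * ‖(a : ℂ) * v0 k t f + v‖ ^ 2 * z)

/-- The smoothed theta series. -/
def ThM (f : ℕ) (m b : Ideal (OO k t)) (z : ℂ) : ℂ :=
  (Tc f (m * b) 1 z - NI m * Tc f b 1 (NI m * z)) / fr b

/-- `lim ThM(r + i y)`. -/
def hM (f : ℕ) (m b : Ideal (OO k t)) (r : ℚ) : ℂ :=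
  limUnder (𝓝[>] (0 : ℝ)) (fun y => ThM f m b (r + y * Complex.I))

/-- The algebraic number `hM`. -/
def etaM (f : ℕ) (m b : Ideal (OO k t)) (r : ℚ) : Om := ofC (hM f m b r)

/-- A system of representatives of the ray class group modulo `n`. -/
structure IsRC (n : Ideal (OO k t)) (R : Finset (Ideal (OO k t))) : Prop where
  mem : ∀ b ∈ R, b ≠ ⊥ ∧ PrI b n
  ex : ∀ b : Ideal (OO k t), b ≠ ⊥ → PrI b n → ∃ b' ∈ R, Ray n b b'
  uni : ∀ b ∈ R, ∀ b' ∈ R, Ray n b b' → b = b'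

/-- A character of order prime to `3` of the ray class group modulo `n`, zero outside of the ideals prime
to `n`. -/
structure IsChi (n : Ideal (OO k t)) (χ : Ideal (OO k t) → Om) : Prop where
  zero : ∀ b : Ideal (OO k t), b = ⊥ ∨ ¬ PrI b n → χ b = 0
  ray : ∀ b b' : Ideal (OO k t), b ≠ ⊥ → b' ≠ ⊥ → PrI b n → PrI b' n → Ray n b b' → χ b = χ b'
  mul : ∀ a b : Ideal (OO k t), χ (a * b) = χ a * χ b
  cop : ∃ m : ℕ, m.Coprime 3 ∧ ∀ b : Ideal (OO k t), b ≠ ⊥ → PrI b n → χ b ^ m = 1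

/-- `η_χ(r) = ∑ χ(b) η_b(r)`, the sum over the ray class group modulo `f 𝔭̄`. -/
def etaX (f : ℕ) (m : Ideal (OO k t)) (R : Finset (Ideal (OO k t))) (χ : Ideal (OO k t) → Om)
    (r : ℚ) : Om := ∑ b ∈ R, χ b * etaM f m b r

/-! ## Fields -/

/-- The field fixed by all `τ` in `Gal(Om/K)` which act on the `n`-torsion as an ideal in `H`. -/
def FixI (n : Ideal (OO k t)) (H : Ideal (OO k t) → Prop) : IntermediateField ℚ Om where
  carrier := {x | ∀ τ ∈ GK k t, ∀ a : Ideal (OO k t), Psi τ n a → H a → τ x = x}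
  mul_mem' := by
    intro x y hx hy τ hτ a h1 h2
    rw [map_mul, hx τ hτ a h1 h2, hy τ hτ a h1 h2]
  one_mem' := fun τ _ _ _ _ => map_one τ
  add_mem' := by
    intro x y hx hy τ hτ a h1 h2
    rw [map_add, hx τ hτ a h1 h2, hy τ hτ a h1 h2]
  zero_mem' := fun τ _ _ _ _ => map_zero τ
  algebraMap_mem' := fun r τ _ _ _ _ => τ.commutes r
  inv_mem' := by
    intro x hx τ hτ a h1 h2
    rw [map_inv₀, hx τ hτ a h1 h2]

/-- `v` is in `H_f`: prime to `3 f`, and in the 3-primary part of `(O/3f)^*`. -/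
def Hf (f : ℕ) (v : OO k t) : Prop :=
  PrI (sp v) (sN k t (3 * f)) ∧ ∃ j : ℕ, ((3 * f : ℕ) : OO k t) ∣ v ^ 3 ^ j - 1

/-- `v` is in `H_N`: in `H_f`, and the norm is `1` modulo `3 ^ N`. -/
def HN (f N : ℕ) (v : OO k t) : Prop := Hf f v ∧ (3 : ℤ) ^ N ∣ Nm v - 1

/-- The 3-primary part of the ray class group modulo `3 f`. -/
def H3 (f : ℕ) (a : Ideal (OO k t)) : Prop := ∃ j : ℕ, Ray (sN k t (3 * f)) (a ^ 3 ^ j) ⊤

/-- The classes in `H3 f` whose norm is `1` modulo `3 ^ N`. -/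
def H3N (f N : ℕ) (a : Ideal (OO k t)) : Prop := H3 f a ∧ (3 : ℤ) ^ N ∣ (NI a : ℤ) - 1

/-- The classes of the principal ideals `(v)`, `v` in `H_f`. -/
def HP (f : ℕ) (a : Ideal (OO k t)) : Prop :=
  ∃ v : OO k t, v ≠ 0 ∧ Hf f v ∧ Ray (sN k t (3 * f)) a (sp v)

/-- The classes of the principal ideals `(v)`, `v` in `H_N` (`1 ≤ N`). -/
def HPN (f N : ℕ) (a : Ideal (OO k t)) : Prop :=
  ∃ v : OO k t, v ≠ 0 ∧ HN f N v ∧ Ray (sN k t (f * 3 ^ N)) a (sp v)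

/-- The field `L` for `f`: the maximal subextension of degree prime to `3` over `K` of the ray class field
modulo `3 f`. It contains the third roots of unity. -/
def Lf (k t f : ℕ) : IntermediateField ℚ Om := FixI (sN k t (3 * f)) (H3 f)

/-- The field `L_n = L(μ_(3^N))`, `N = n + 1 ≥ 1`. -/
def Ln (k t f N : ℕ) : IntermediateField ℚ Om := FixI (sN k t (f * 3 ^ N)) (H3N f N)

/-- The field `L'` for `f`; it contains the Hilbert class field. -/
def Mf (k t f : ℕ) : IntermediateField ℚ Om := FixI (sN k t (3 * f)) (HP f)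

/-- The field `L'_n = L'(μ_(3^N))`, `N = n + 1 ≥ 1`. -/
def Mn (k t f N : ℕ) : IntermediateField ℚ Om := FixI (sN k t (f * 3 ^ N)) (HPN f N)

/-! ## Elliptic units -/

/-- A half system of `Lam (m b) / Lam b` without `0` (`N m` odd). -/
structure IsHalf (m b : Ideal (OO k t)) (S : Finset ℂ) : Prop where
  mem : ∀ u ∈ S, u ∈ Lam (m * b) ∧ u ∉ Lam b
  ex : ∀ z ∈ Lam (m * b), z ∉ Lam b → ∃ u ∈ S, z - u ∈ Lam b ∨ z + u ∈ Lam b
  uni : ∀ u ∈ S, ∀ u' ∈ S, (u - u' ∈ Lam b ∨ u + u' ∈ Lam b) → u = u'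

/-- A chosen half system. -/
def hs (m b : Ideal (OO k t)) : Finset ℂ := by
  classical
  exact if h : ∃ S, IsHalf m b S then h.choose else ∅

/-- The function `Θ_m(b, z) = ∏ δ X(u)²/(X(z) - X(u))²`, the product over `(E[m] - 0)/±1` (the factor
`X(u)²` makes it a unit also at the primes above `m`). -/
def Theta (m b : Ideal (OO k t)) (z : ℂ) : Om :=
  ∏ u ∈ hs m b, dlO b * xO b u ^ 2 * ((xO b z - xO b u) ^ 2)⁻¹

/-- The conductor `f 𝔭^N 𝔭̄^(N+1)`. -/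
def cnN (k t f N : ℕ) : Ideal (OO k t) := sN k t (f * 3 ^ N) * ppb k t

/-- An element `c₀` of `O`, congruent to `3 + f w` modulo `3 f`, exactly divisible by `𝔭`. -/
def c0 (k t f : ℕ) : OO k t := by
  classical
  exact if (⟨3, f⟩ : OO k t) ∈ pp k t ^ 2 then ⟨3 + 3 * f, f⟩ else ⟨3, f⟩

/-- The point `z_N = c₀/(3^(N+1) f)`, of order `f 𝔭^N 𝔭̄^(N+1)`; `3^N z_N = v₀` modulo `O`. -/
def zN (k t f N : ℕ) : ℂ := toC (c0 k t f) / (3 ^ (N + 1) * f)

/-- A set of representatives of `H_N` modulo `f 𝔭^N 𝔭̄^(N+1)`. -/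
structure IsRep (f N : ℕ) (T : Finset (OO k t)) : Prop where
  mem : ∀ h ∈ T, HN f N h
  ex : ∀ v : OO k t, HN f N v → ∃ h ∈ T, v - h ∈ cnN k t f N
  uni : ∀ h ∈ T, ∀ h' ∈ T, h - h' ∈ cnN k t f N → h = h'

/-- The elliptic unit `u'_n(b)`, `n = N - 1`. -/
def uN (f N : ℕ) (m : Ideal (OO k t)) (T : Finset (OO k t)) (b : Ideal (OO k t)) : Om :=
  ∏ h ∈ T, Theta m b (toC h * zN k t f N)

/-! ## The Kummer character -/

/-- The root of unity `exp(2 π i / n)` in `Om`. -/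
def zet (n : ℕ) : Om := ofC (ex (1 / n))

/-- A cube root. -/
def cbr (w : Om) : Om := by
  classical
  exact if h : ∃ y : Om, y ^ 3 = w then h.choose else 0

/-- The Kummer character: `d (cbr w) = ζ₃ ^ (kap w d) cbr w`, for `d` fixing `w`. -/
def kap (w : Om) (d : Gal(Om/ℚ)) : ZMod 3 := by
  classical
  exact if d (cbr w) = cbr w then 0 else if d (cbr w) = zet 3 * cbr w then 1 else 2

/-! ## The theorem -/

/-- `j(O)`, divided by `1728`. -/
def jC (k t : ℕ) : ℂ :=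
  (LP (⊤ : Ideal (OO k t))).g₂ ^ 3 /
    ((LP (⊤ : Ideal (OO k t))).g₂ ^ 3 - 27 * (LP (⊤ : Ideal (OO k t))).g₃ ^ 2)

/-- The Weber function `h(z) = (g₂ g₃/(g₂³ - 27 g₃²)) ℘(z; O)`. -/
def weC (k t : ℕ) (z : ℂ) : ℂ :=
  (LP (⊤ : Ideal (OO k t))).g₂ * (LP (⊤ : Ideal (OO k t))).g₃ /
    ((LP (⊤ : Ideal (OO k t))).g₂ ^ 3 - 27 * (LP (⊤ : Ideal (OO k t))).g₃ ^ 2) *
      wpC (⊤ : Ideal (OO k t)) z

/-- The field generated by `√-D`, `j(O)` and the values of the Weber function at all torsion points: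
the maximal abelian extension of `K` (theorem of Weber, Takagi, Hasse; not used). -/
def Wf (k t : ℕ) : IntermediateField ℚ Om :=
  IntermediateField.adjoin ℚ ({wO k t, ofC (jC k t)} ∪
    {x : Om | ∃ z : ℂ, Tor k t z ∧ z ∉ Lam (⊤ : Ideal (OO k t)) ∧ x = ofC (weC k t z)})

/-- **Theorem DT.** -/
def ThmDT : Prop :=
  ∀ (k t : ℕ) [SqT k t] (F : IntermediateField ℚ Om), FiniteDimensional ℚ F → F ≤ Wf k t →
    XFinGen 3 (cyc 3 F)

end Pool.Agent.DT
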