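import Pool.Agent.Lib.DT.Ded

/-!
# Theorem DT (`p = 3`): parts 0 and L, statements

Moduli are ideals `n`. `sN k t N` is the principal ideal of the integer `N`; `Cop v N` (`DT/Base.lean`): `Nm v` is
prime to `N`; `Deg1 q l`, `IsSys a b R`: `DT/Base.lean`. A false or awkward statement: mail helper42 at once.
`O` is a Dedekind domain: instance in `DT/Ded.lean`.
-/

set_option autoImplicit false

open scoped Pointwise nonZeroDivisors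

noncomputable section

namespace Pool.Agent.DT

open Pool.Agent.MuZ Pool.Agent.FW NumberField IsDedekindDomain
open Pool.Agent.DI (io ofC io_inj exists_io io_ofC ofC_io VP MP UP TP ex)

/-! ## Part 0: the ring `O` -/

/-- `O` is a Dedekind domain. -/
def S_O1 : Prop := ∀ (k t : ℕ) [SqT k t], IsDedekindDomain (OO k t)

theorem s_O1 : S_O1 := fun _ _ _ => inferInstance

/-- Multiplicativity of the norms. -/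
def S_O2 : Prop :=
  ∀ (k t : ℕ) [SqT k t], (∀ v u : OO k t, Nm (v * u) = Nm v * Nm u) ∧ (∀ v : OO k t, 0 ≤ Nm v) ∧
    (∀ v : OO k t, Nm v = 0 ↔ v = 0) ∧ (∀ v : OO k t, (NI (sp v) : ℤ) = Nm v) ∧
    (∀ a b : Ideal (OO k t), NI (a * b) = NI a * NI b) ∧ (∀ a : Ideal (OO k t), NI a = 0 ↔ a = ⊥) ∧
    (∀ v : OO k t, v * cjO v = (Nm v : OO k t)) ∧
    ∀ v : OO k t, toC (cjO v) = (starRingEnd ℂ) (toC v) ∧ ((Nm v : ℤ) : ℂ) = (‖toC v‖ : ℂ) ^ 2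

/-- Conjugate ideals. -/
def S_O3 : Prop :=
  ∀ (k t : ℕ) [SqT k t], (∀ (a : Ideal (OO k t)) (v : OO k t), v ∈ cjI a ↔ cjO v ∈ a) ∧
    (∀ a b : Ideal (OO k t), cjI (a * b) = cjI a * cjI b) ∧
    (∀ a : Ideal (OO k t), cjI (cjI a) = a ∧ NI (cjI a) = NI a ∧ a * cjI a = sN k t (NI a)) ∧
    (∀ v : OO k t, cjI (sp v) = sp (cjO v)) ∧ (∀ N : ℕ, cjI (sN k t N) = sN k t N) ∧
    (∀ a n : Ideal (OO k t), PrI (cjI a) (cjI n) ↔ PrI a n) ∧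
    (∀ a : Ideal (OO k t), a ≠ ⊥ → cjI a ≠ ⊥) ∧
    ∀ n a a' : Ideal (OO k t), Ray n a a' → Ray (cjI n) (cjI a) (cjI a')

/-- The primes above `3`. -/
def S_O4 : Prop :=
  ∀ (k t : ℕ) [SqT k t], pp k t * ppb k t = sN k t 3 ∧ cjI (pp k t) = ppb k t ∧
    cjI (ppb k t) = pp k t ∧ (pp k t).IsPrime ∧ (ppb k t).IsPrime ∧
    NI (pp k t) = 3 ∧ NI (ppb k t) = 3 ∧ pp k t ⊔ ppb k t = ⊤ ∧ pp k t ≠ ⊥ ∧ ppb k t ≠ ⊥ ∧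
    (∀ v : OO k t, v ∈ pp k t ↔ (3 : ℤ) ∣ v.re) ∧ ∀ v : OO k t, v ∈ ppb k t ↔ (3 : ℤ) ∣ v.re + v.im

/-- A power of every ideal is principal. -/
def S_O5 : Prop :=
  ∀ (k t : ℕ) [SqT k t] (a : Ideal (OO k t)), a ≠ ⊥ →
    ∃ (h : ℕ) (α : OO k t), 0 < h ∧ α ≠ 0 ∧ a ^ h = sp α

/-- Coprimality. -/
def S_O6 : Prop :=
  ∀ (k t : ℕ) [SqT k t], (∀ a b n : Ideal (OO k t), PrI (a * b) n ↔ PrI a n ∧ PrI b n) ∧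
    (∀ a n n' : Ideal (OO k t), PrI a (n * n') ↔ PrI a n ∧ PrI a n') ∧
    (∀ a n : Ideal (OO k t), PrI a n ↔ PrI n a) ∧
    (∀ a n n' : Ideal (OO k t), n ≤ n' → PrI a n → PrI a n') ∧
    (∀ (N : ℕ) (a : Ideal (OO k t)), PrI a (sN k t N) ↔ (NI a).Coprime N) ∧
    (∀ (N : ℕ) (v : OO k t), PrI (sp v) (sN k t N) ↔ Cop v N) ∧
    (∀ (a : Ideal (OO k t)) (v u : OO k t), v - u ∈ a → PrI (sp v) a → PrI (sp u) a) ∧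
    ∀ a n : Ideal (OO k t), a ≠ ⊥ → PrI a n → ∃ v ∈ a, v ≠ 0 ∧ v - 1 ∈ n

/-- The ray class relation. -/
def S_O7 : Prop :=
  ∀ (k t : ℕ) [SqT k t] (n : Ideal (OO k t)), n ≠ ⊥ →
    (∀ a : Ideal (OO k t), Ray n a a) ∧ (∀ a b : Ideal (OO k t), Ray n a b → Ray n b a) ∧
    (∀ a b c : Ideal (OO k t), Ray n a b → Ray n b c → Ray n a c) ∧
    (∀ a b c d : Ideal (OO k t), Ray n a b → Ray n c d → Ray n (a * c) (b * d)) ∧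
    (∀ a b c : Ideal (OO k t), c ≠ ⊥ → PrI c n → Ray n (a * c) (b * c) → Ray n a b) ∧
    (∀ a b : Ideal (OO k t), Ray n a b → (a ≠ ⊥ ↔ b ≠ ⊥) ∧ (PrI a n ↔ PrI b n)) ∧
    (∀ n' a b : Ideal (OO k t), n ≤ n' → Ray n a b → Ray n' a b) ∧
    (∀ v u : OO k t, v ≠ 0 → u ≠ 0 → PrI (sp v) n → PrI (sp u) n →
      (Ray n (sp v) (sp u) ↔ v - u ∈ n ∨ v + u ∈ n)) ∧
    (∀ a : Ideal (OO k t), a ≠ ⊥ → PrI a n → ∃ a' : Ideal (OO k t), a' ≠ ⊥ ∧ PrI a' n ∧ Ray n (a * a') ⊤) ∧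
    ∃ R : Finset (Ideal (OO k t)), IsRC n R

/-- Every class contains a product of prime ideals of degree one with large norms. `C` is closed under
products, and contains these prime ideals. -/
def S_O8 : Prop :=
  ∀ (k t : ℕ) [SqT k t] (n : Ideal (OO k t)) (M : ℕ), n ≠ ⊥ → 0 < M → ∀ C : Ideal (OO k t) → Prop, C ⊤ →
    (∀ a b, C a → C b → C (a * b)) →
    (∀ (q : Ideal (OO k t)) (l : ℕ), Deg1 q l → l.Coprime (NI n * M) → C q) →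
    ∀ a : Ideal (OO k t), a ≠ ⊥ → PrI a n →
      ∃ a' : Ideal (OO k t), a' ≠ ⊥ ∧ PrI a' (sN k t (NI n * M)) ∧ C a' ∧ Ray n a a'

/-- The norms of the ideals modulo `N`: they depend only on the class modulo `N`. -/
def S_O9 : Prop :=
  ∀ (k t : ℕ) [SqT k t] (N : ℕ), 0 < N → ∀ a a' : Ideal (OO k t), Ray (sN k t N) a a' →
    (N : ℤ) ∣ (NI a : ℤ) - NI a'

/-! ## Part L: lattices -/

/-- `Lam b` is a lattice. -/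
def S_L1 : Prop :=
  ∀ (k t : ℕ) [SqT k t] (b : Ideal (OO k t)), b ≠ ⊥ → ((LP b).lattice : Set ℂ) = Lam b

/-- Basic properties. -/
def S_L2 : Prop :=
  ∀ (k t : ℕ) [SqT k t],
    (∀ b : Ideal (OO k t), (0 : ℂ) ∈ Lam b ∧ (∀ z z' : ℂ, z ∈ Lam b → z' ∈ Lam b → z + z' ∈ Lam b) ∧
      (∀ z : ℂ, z ∈ Lam b → -z ∈ Lam b) ∧ ∀ (v : OO k t) (z : ℂ), z ∈ Lam b → toC v * z ∈ Lam b) ∧
    (∀ (a b : Ideal (OO k t)) (z : ℂ), z ∈ Lam (a * b) ↔ ∀ v ∈ a, toC v * z ∈ Lam b) ∧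
    (∀ (a b : Ideal (OO k t)) (z : ℂ), z ∈ Lam b → z ∈ Lam (a * b)) ∧
    (∀ (α : OO k t) (b : Ideal (OO k t)) (z : ℂ), z ∈ Lam (sp α * b) ↔ toC α * z ∈ Lam b) ∧
    (∀ (N : ℕ) (b : Ideal (OO k t)) (z : ℂ), z ∈ Lam (sN k t N * b) ↔ (N : ℂ) * z ∈ Lam b) ∧
    (∀ z : ℂ, z ∈ Lam (⊤ : Ideal (OO k t)) ↔ ∃ v : OO k t, z = toC v) ∧
    (∀ (b : Ideal (OO k t)) (z : ℂ), b ≠ ⊥ → z ∈ Lam b → Tor k t z) ∧
    (∀ (b : Ideal (OO k t)) (z : ℂ), z ∈ Lam (cjI b) ↔ (starRingEnd ℂ) z ∈ Lam b) ∧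
    ∀ (b : Ideal (OO k t)) (z : ℂ), b ≠ ⊥ → (Tor k t z ↔ ∃ N : ℕ, 0 < N ∧ (N : ℂ) * z ∈ Lam b)

/-- `Lam (a b) / Lam b` is isomorphic to `O / a`. -/
def S_L3 : Prop :=
  ∀ (k t : ℕ) [SqT k t] (a b : Ideal (OO k t)), a ≠ ⊥ → b ≠ ⊥ →
    (∃ z ∈ Lam (a * b), ∀ a' : Ideal (OO k t), a < a' → z ∉ Lam (a' * b)) ∧
    (∀ g ∈ Lam (a * b), (∀ a' : Ideal (OO k t), a < a' → g ∉ Lam (a' * b)) →
      (∀ v : OO k t, toC v * g ∈ Lam b ↔ v ∈ a) ∧ ∀ z ∈ Lam (a * b), ∃ v : OO k t, z - toC v * g ∈ Lam b) ∧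
    ∃ R : Finset ℂ, IsSys a b R ∧ R.card = NI a

/-- Annihilators; primary decomposition. -/
def S_L4 : Prop :=
  ∀ (k t : ℕ) [SqT k t] (b : Ideal (OO k t)), b ≠ ⊥ →
    (∀ z : ℂ, Tor k t z → ∃ a : Ideal (OO k t), a ≠ ⊥ ∧ z ∈ Lam (a * b) ∧
      ∀ v : OO k t, toC v * z ∈ Lam b ↔ v ∈ a) ∧
    (∀ a a' : Ideal (OO k t), a ≠ ⊥ → a' ≠ ⊥ → a ⊔ a' = ⊤ →
      (∀ z : ℂ, z ∈ Lam (a * b) → z ∈ Lam (a' * b) → z ∈ Lam b) ∧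
      ∀ z ∈ Lam (a * a' * b), ∃ z' ∈ Lam (a * b), ∃ z'' ∈ Lam (a' * b), z = z' + z'')

/-- `n`-torsion of `ℂ / Lam b` and `ℂ / Lam (a b)`, `a` prime to `n`. -/
def S_L5 : Prop :=
  ∀ (k t : ℕ) [SqT k t] (a b n : Ideal (OO k t)), a ≠ ⊥ → b ≠ ⊥ → PrI a n →
    (∀ z : ℂ, z ∈ Lam (n * b) → z ∈ Lam (a * b) → z ∈ Lam b) ∧
    ∀ z : ℂ, z ∈ Lam (n * (a * b)) → ∃ z' ∈ Lam (n * b), z - z' ∈ Lam (a * b)

/-- The points `T`, `S`, `t` on one curve. -/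
def S_L6a : Prop :=
  ∀ (k t : ℕ) [SqT k t] (b : Ideal (OO k t)), b ≠ ⊥ →
    (ptT b ∈ Lam (pp k t * b) ∧ ptT b ∉ Lam b ∧ 3 * ptT b ∈ Lam b ∧ ptT b + ptT b ∉ Lam b ∧
      ∀ z ∈ Lam (pp k t * b), z ∈ Lam b ∨ z - ptT b ∈ Lam b ∨ z + ptT b ∈ Lam b) ∧
    (ptS b ∈ Lam (ppb k t * b) ∧ ptS b ∉ Lam b ∧ 3 * ptS b ∈ Lam b ∧ ptS b + ptS b ∉ Lam b ∧
      ∀ z ∈ Lam (ppb k t * b), z ∈ Lam b ∨ z - ptS b ∈ Lam b ∨ z + ptS b ∈ Lam b) ∧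
    (ptT b ∉ Lam (ppb k t * b) ∧ ptS b ∉ Lam (pp k t * b) ∧
      ptS b + ptT b ∉ Lam b ∧ ptS b - ptT b ∉ Lam b ∧
      ∀ z : ℂ, 3 * z ∈ Lam b → ∃ i j : ℤ, z - (i * ptS b + j * ptT b) ∈ Lam b) ∧
    (ptt b ∈ Lam (ppb k t ^ 2 * b) ∧ ptt b ∉ Lam (ppb k t * b) ∧ (∀ j : ℤ, j * ptt b ∈ Lam b ↔ (9 : ℤ) ∣ j) ∧
      ptt b + ptS b ∉ Lam (ppb k t * b) ∧ ptt b - ptS b ∉ Lam (ppb k t * b) ∧
      (∀ z ∈ Lam (ppb k t ^ 2 * b), ∃ j : ℤ, z - j * ptt b ∈ Lam b) ∧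
      ∀ z ∈ Lam (ppb k t ^ 2 * b), z ∉ Lam (ppb k t * b) →
        (z - ptt b ∈ Lam b ∨ z - (ptt b + ptS b) ∈ Lam b ∨ z - (ptt b - ptS b) ∈ Lam b) ∨
        (z + ptt b ∈ Lam b ∨ z + (ptt b + ptS b) ∈ Lam b ∨ z + (ptt b - ptS b) ∈ Lam b))

/-- The points `T`, `S`, `t` on different curves; complex conjugation; the point `S₀ = w/3`. -/
def S_L6 : Prop :=
  ∀ (k t : ℕ) [SqT k t] (b : Ideal (OO k t)), b ≠ ⊥ →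
    ((ptT (ppb k t * b) - ptT b ∈ Lam (ppb k t * b) ∨ ptT (ppb k t * b) + ptT b ∈ Lam (ppb k t * b)) ∧
      (ptS (ppb k t * b) - ptt b ∈ Lam (ppb k t * b) ∨ ptS (ppb k t * b) + ptt b ∈ Lam (ppb k t * b))) ∧
    ((ptS (pp k t * b) - ptS b ∈ Lam (pp k t * b) ∨ ptS (pp k t * b) + ptS b ∈ Lam (pp k t * b)) ∧
      ptt b ∉ Lam (ppb k t * (pp k t * b)) ∧
      ∃ j : ℤ, ¬ (3 : ℤ) ∣ j ∧ ptt (pp k t * b) - j * ptt b ∈ Lam (pp k t * b)) ∧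
    (∀ a : Ideal (OO k t), a ≠ ⊥ → PrI a (sN k t 3) →
      (ptT (a * b) - ptT b ∈ Lam (a * b) ∨ ptT (a * b) + ptT b ∈ Lam (a * b)) ∧
      (ptS (a * b) - ptS b ∈ Lam (a * b) ∨ ptS (a * b) + ptS b ∈ Lam (a * b)) ∧
      ∃ j : ℤ, ¬ (3 : ℤ) ∣ j ∧ ptt (a * b) - j * ptt b ∈ Lam (a * b)) ∧
    (∀ α : OO k t, α ≠ 0 →
      (toC α * ptT (sp α * b) - ptT b ∈ Lam b ∨ toC α * ptT (sp α * b) + ptT b ∈ Lam b) ∧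
      (toC α * ptS (sp α * b) - ptS b ∈ Lam b ∨ toC α * ptS (sp α * b) + ptS b ∈ Lam b) ∧
      ∃ j : ℤ, ¬ (3 : ℤ) ∣ j ∧ toC α * ptt (sp α * b) - j * ptt b ∈ Lam b) ∧
    ((starRingEnd ℂ) (ptT b) - ptS (cjI b) ∈ Lam (cjI b) ∨
      (starRingEnd ℂ) (ptT b) + ptS (cjI b) ∈ Lam (cjI b)) ∧
    ((starRingEnd ℂ) (ptS b) - ptT (cjI b) ∈ Lam (cjI b) ∨
      (starRingEnd ℂ) (ptS b) + ptT (cjI b) ∈ Lam (cjI b)) ∧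
    (S0 k t ∈ Lam (ppb k t * b) ∧ (∀ α : OO k t, α - 1 ∈ ppb k t → toC α * S0 k t - S0 k t ∈ Lam b) ∧
      (∀ α : OO k t, α + 1 ∈ ppb k t → toC α * S0 k t + S0 k t ∈ Lam b) ∧
      (PrI b (ppb k t) → S0 k t ∉ Lam b ∧ (ptS b - S0 k t ∈ Lam b ∨ ptS b + S0 k t ∈ Lam b)))

end Pool.Agent.DT
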