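import Pool.Agent.Lib.DT.IfaceG
import Pool.Agent.Lib.DT.IfaceO

/-!
# Theorem DT (`p = 3`): the interface (parts B, R, D, E)

Every `S_...` is a statement which is proved by ONE part and used by others. Nothing is proved here.
`k`, `t` with `SqT k t`; `b`, `a`, `m` nonzero ideals of `O`; `Lam b = b⁻¹`. Parts O and L (same numbering
as in `DK/Iface.lean`): `DT/O/Spec.lean` of helper42. A false or awkward statement: mail helper67 at once.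
-/

set_option autoImplicit false

open scoped Pointwise Topology nonZeroDivisors
open Filter

noncomputable section

namespace Pool.Agent.DT

open Pool.Agent.MuZ Pool.Agent.FW NumberField IsDedekindDomain
open Pool.Agent.DI (io ofC io_inj exists_io io_ofC ofC_io VP MP UP TP ex)

/-! ## More definitions -/

/-- The prime `Q` of `ZZ` is above the ideal `a` (`a ⊆ Q`). -/
def Abv {k t : ℕ} (Q : Ideal ZZ) (a : Ideal (OO k t)) : Prop := ∀ v ∈ a, MP Q (toO v)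

/-- The kernel of reduction of `ℂ / Lam b` (model `X`), for the primes not above `𝔭̄`. -/
def IK {k t : ℕ} (Q : Ideal ZZ) (b : Ideal (OO k t)) (z : ℂ) : Prop :=
  Tor k t z ∧ (z ∈ Lam b ∨ ¬ VP Q (xO b z))

/-- `z` is `Q`-primary modulo `Lam b`. -/
def Qp {k t : ℕ} (Q : Ideal ZZ) (b : Ideal (OO k t)) (z : ℂ) : Prop :=
  ∀ α β : OO k t, ¬ MP Q (toO α) → toC (α * β) * z ∈ Lam b → toC β * z ∈ Lam b

/-- `(a b; c d)` with determinant `1`, `c` divisible by `M`. -/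
def G0 (M : ℤ) (a b c d : ℤ) : Prop := a * d - b * c = 1 ∧ M ∣ c

/-- `W²(u) = 4 X³ + (Al X + 1)²`, complex. -/
def WC2 {k t : ℕ} (b : Ideal (OO k t)) (u : ℂ) : ℂ := 4 * XC b u ^ 3 + (AC b * XC b u + 1) ^ 2

/-- `conj (r²(conj b)) / r²(b)`. -/
def kpC {k t : ℕ} (b : Ideal (OO k t)) : ℂ := (starRingEnd ℂ) (r2 (cjI b)) / r2 b

/-- The algebraic number `kpC`. -/
def kpO {k t : ℕ} (b : Ideal (OO k t)) : Om := ofC (kpC b)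

/-! ## Part B: elliptic functions over `ℂ` -/

/-- Periods, parity, values at lattice points (conventions of Mathlib); the numbers. -/
def S_B1 : Prop :=
  ∀ (k t : ℕ) [SqT k t] (b : Ideal (OO k t)), b ≠ ⊥ →
    (∀ z l : ℂ, l ∈ Lam b → wpC b (z + l) = wpC b z ∧ wdC b (z + l) = wdC b z ∧ XC b (z + l) = XC b z) ∧
    (∀ z : ℂ, wpC b (-z) = wpC b z ∧ wdC b (-z) = -wdC b z ∧ XC b (-z) = XC b z) ∧
    r2 b ≠ 0 ∧ wdC b (ptS b) ≠ 0 ∧ AC b ^ 3 - 27 ≠ 0 ∧ r2 b ^ 3 = wdC b (ptS b) ^ 2 ∧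
    wpC b (ptS b) = r2 b * AC b ^ 2 / 12 ∧
    (∀ z z' : ℂ, z ∉ Lam b → z' ∉ Lam b → (XC b z = XC b z' ↔ z - z' ∈ Lam b ∨ z + z' ∈ Lam b)) ∧
    (∀ z : ℂ, z ∉ Lam b → (wdC b z = 0 ↔ 2 * z ∈ Lam b)) ∧
    (∀ z : ℂ, wpC b z = r2 b * (XC b z + AC b ^ 2 / 12)) ∧
    (∀ z ∈ Lam b, XC b z = -(AC b ^ 2) / 12 ∧ wdC b z = 0) ∧
    XC b (ptS b) = 0 ∧
    (LP b).g₂ = r2 b ^ 2 * (AC b ^ 4 - 24 * AC b) / 12 ∧
    (LP b).g₃ = r2 b ^ 3 * (-AC b ^ 6 + 36 * AC b ^ 3 - 216) / 216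

/-- The curve. -/
def S_B2 : Prop :=
  ∀ (k t : ℕ) [SqT k t] (b : Ideal (OO k t)), b ≠ ⊥ → ∀ z : ℂ, z ∉ Lam b →
    wdC b z ^ 2 = r2 b ^ 3 * WC2 b z ∧
    AnalyticAt ℂ (XC b) z ∧ AnalyticAt ℂ (wdC b) z ∧ HasDerivAt (XC b) (wdC b z / r2 b) z ∧
    HasDerivAt (wdC b) (r2 b ^ 2 * (6 * XC b z ^ 2 + AC b ^ 2 * XC b z + AC b)) z

/-- The formulas of the Kummer line (`b₂ = Al²`, `b₄ = Al`, `b₆ = 1`, `b₈ = 0`). -/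
def S_B3 : Prop :=
  ∀ (k t : ℕ) [SqT k t] (b : Ideal (OO k t)), b ≠ ⊥ →
    (∀ z z' : ℂ, z ∉ Lam b → z' ∉ Lam b → z + z' ∉ Lam b → z - z' ∉ Lam b →
      (XC b (z + z') + XC b (z - z')) * (XC b z - XC b z') ^ 2 =
        2 * XC b z * XC b z' * (XC b z + XC b z') + AC b ^ 2 * XC b z * XC b z' +
          AC b * (XC b z + XC b z') + 1 ∧
      XC b (z + z') * XC b (z - z') * (XC b z - XC b z') ^ 2 =
        XC b z ^ 2 * XC b z' ^ 2 - AC b * XC b z * XC b z' - (XC b z + XC b z') ∧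
      r2 b ^ 3 * (XC b (z + z') - XC b (z - z')) * (XC b z - XC b z') ^ 2 = -(wdC b z * wdC b z')) ∧
    ∀ z : ℂ, 2 * z ∉ Lam b →
      XC b (2 * z) * WC2 b z = XC b z ^ 4 - AC b * XC b z ^ 2 - 2 * XC b z

/-- Translation by the point `S`; the points of order `𝔭̄²`. -/
def S_B4 : Prop :=
  ∀ (k t : ℕ) [SqT k t] (b : Ideal (OO k t)), b ≠ ⊥ →
    (∀ z : ℂ, z ∉ Lam b → z + ptS b ∉ Lam b → z - ptS b ∉ Lam b →
      XC b z ≠ 0 ∧ XC b z * XC b (z + ptS b) * XC b (z - ptS b) = -1 ∧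
      (XC b (z + ptS b) + XC b (z - ptS b)) * XC b z ^ 2 = AC b * XC b z + 1 ∧
      wdC b z = wdC b (ptS b) * (AC b * XC b z + 1 - 2 * XC b z ^ 2 * XC b (z + ptS b))) ∧
    ∀ z ∈ Lam (ppb k t ^ 2 * b), z ∉ Lam (ppb k t * b) →
      XC b (4 * z) * (1 - XC b z) = 1 ∧ XC b (2 * z) * XC b z = XC b z - 1 ∧ XC b z ≠ 0 ∧ XC b z ≠ 1

/-- The isogeny `𝔭̄`. -/
def S_B5 : Prop :=
  ∀ (k t : ℕ) [SqT k t] (b : Ideal (OO k t)), b ≠ ⊥ →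
    rhC b ≠ 0 ∧ rhC b ^ 3 = AC b ^ 2 + 3 * AC b + 9 ∧ AC (ppb k t * b) * rhC b = AC b + 6 ∧
    dlC (ppb k t * b) * rhC b = AC b - 3 ∧ r2 (ppb k t * b) = rhC b ^ 2 * r2 b ∧
    ∀ z : ℂ, z ∉ Lam (ppb k t * b) →
      XC (ppb k t * b) z * (rhC b ^ 2 * XC b z ^ 2) =
        XC b z ^ 3 - (AC b + 3) * XC b z ^ 2 + AC b * XC b z + 1 ∧
      wdC (ppb k t * b) z = wdC b z + wdC b (z + ptS b) + wdC b (z - ptS b) ∧
      wdC (ppb k t * b) z * XC b z ^ 3 = wdC b z * (XC b z ^ 3 - AC b * XC b z - 2)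

/-- The isogeny `𝔭`. -/
def S_B6 : Prop :=
  ∀ (k t : ℕ) [SqT k t] (b : Ideal (OO k t)), b ≠ ⊥ →
    rhC (pp k t * b) ≠ 0 ∧ rhC (pp k t * b) ^ 3 = AC (pp k t * b) ^ 2 + 3 * AC (pp k t * b) + 9 ∧
    AC b * rhC (pp k t * b) = AC (pp k t * b) + 6 ∧ XC b (ptT b) = -rhC (pp k t * b) / 3 ∧
    dlC b * rhC (pp k t * b) = AC (pp k t * b) - 3 ∧ dlC b ^ 3 = AC b ^ 3 - 27 ∧
    r2 (pp k t * b) * rhC (pp k t * b) ^ 2 = 9 * r2 b ∧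
    ∀ z : ℂ, z ∉ Lam (pp k t * b) → 3 * XC b z + rhC (pp k t * b) ≠ 0 ∧
      XC (pp k t * b) z * (3 * XC b z + rhC (pp k t * b)) ^ 2 =
        XC b z * (rhC (pp k t * b) ^ 2 * XC b z ^ 2 + 3 * (AC (pp k t * b) + 3) * XC b z +
          3 * rhC (pp k t * b)) ∧
      wdC (pp k t * b) z = wdC b z + wdC b (z + ptT b) + wdC b (z - ptT b) ∧
      wdC (pp k t * b) z * (3 * XC b z + rhC (pp k t * b)) ^ 3 * rhC (pp k t * b) =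
        27 * wdC b z * (rhC (pp k t * b) * XC b z ^ 3 + rhC (pp k t * b) ^ 2 * XC b z ^ 2 +
          (2 * AC (pp k t * b) + 3) * XC b z + rhC (pp k t * b))

/-- Homogeneity and conjugation. -/
def S_B7 : Prop :=
  ∀ (k t : ℕ) [SqT k t] (b : Ideal (OO k t)), b ≠ ⊥ →
    (∀ α : OO k t, α ≠ 0 →
      (∀ z : ℂ, XC (sp α * b) z = XC b (toC α * z) ∧ wdC (sp α * b) z = toC α ^ 3 * wdC b (toC α * z) ∧
        KC (sp α * b) z = toC α * KC b (toC α * z)) ∧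
      AC (sp α * b) = AC b ∧ rhC (sp α * b) = rhC b ∧ dlC (sp α * b) = dlC b ∧
      kpC (sp α * b) = kpC b ∧ r2 (sp α * b) = toC α ^ 2 * r2 b) ∧
    (∀ z : ℂ, (starRingEnd ℂ) (wpC b z) = wpC (cjI b) ((starRingEnd ℂ) z) ∧
      (starRingEnd ℂ) (wdC b z) = wdC (cjI b) ((starRingEnd ℂ) z) ∧
      (starRingEnd ℂ) (KC b z) = KC (cjI b) ((starRingEnd ℂ) z) ∧
      (starRingEnd ℂ) (XC b z) * kpC (cjI b) =
        XC (cjI b) ((starRingEnd ℂ) z) - XC (cjI b) (ptT (cjI b))) ∧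
    kpC b ≠ 0 ∧ kpC b ^ 3 = WC2 b (ptT b) ∧ 27 * kpC b ^ 3 = -(AC (pp k t * b) - 3) ^ 2 ∧
    (starRingEnd ℂ) (kpC b) * kpC (cjI b) = 1 ∧
    (starRingEnd ℂ) (AC b ^ 3 - 27) * kpC (cjI b) ^ 6 = AC (cjI b) ^ 3 - 27

/-- The number `kpC` in terms of the points of order `𝔭²`. -/
def S_B7k : Prop :=
  ∀ (k t : ℕ) [SqT k t] (b : Ideal (OO k t)), b ≠ ⊥ →
    ∀ z ∈ Lam (pp k t ^ 2 * b), z ∉ Lam (pp k t * b) →
      XC b (2 * z) ≠ XC b (4 * z) ∧ kpC b * (XC b (2 * z) - XC b (4 * z)) =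
        (XC b (4 * z) - XC b (ptT b)) * (XC b (2 * z) - XC b z)

open Classical in
/-- Isogenies: the product formula. -/
def S_B8 : Prop :=
  ∀ (k t : ℕ) [SqT k t] (a b : Ideal (OO k t)), a ≠ ⊥ → b ≠ ⊥ → ∀ R : Finset ℂ, IsSys a b R →
    ∀ v : ℂ, v ∉ Lam (a * b) →
      (∀ z : ℂ, z ∉ Lam (a * b) →
        ∏ u ∈ R, (XC b (z + u) - XC b v) =
          r2 (a * b) / r2 b * (∏ u ∈ R, (if u ∈ Lam b then 1 else XC b u - XC b v)) *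
            (XC (a * b) z - XC (a * b) v)) ∧
      ∀ u ∈ R, u ∉ Lam b → XC b u ≠ XC b v

/-- Isogenies: the sum formulas. -/
def S_B9 : Prop :=
  ∀ (k t : ℕ) [SqT k t] (a b : Ideal (OO k t)), a ≠ ⊥ → b ≠ ⊥ → ∀ R : Finset ℂ, IsSys a b R →
    (∀ z z' : ℂ, z ∉ Lam (a * b) → z' ∉ Lam (a * b) →
      r2 (a * b) * (XC (a * b) z - XC (a * b) z') = r2 b * ∑ u ∈ R, (XC b (z + u) - XC b (z' + u))) ∧
    (∀ z : ℂ, z ∉ Lam (a * b) → wdC (a * b) z = ∑ u ∈ R, wdC b (z + u)) ∧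
    (∀ z : ℂ, z ∉ Lam (a * b) → KC (a * b) z = ∑ u ∈ R, KC b (z + u))

/-- The function `K`: limit, periods, parity, second difference. -/
def S_B10 : Prop :=
  ∀ (k t : ℕ) [SqT k t] (b : Ideal (OO k t)), b ≠ ⊥ →
    (∀ z : ℂ, z ∉ Lam b → Tendsto (fun s => KtC b s z) (𝓝[>] 0) (𝓝 (KC b z))) ∧
    (∀ z l : ℂ, l ∈ Lam b → KC b (z + l) = KC b z) ∧ (∀ z : ℂ, KC b (-z) = -KC b z) ∧
    ∀ z u : ℂ, z ∉ Lam b → u ∉ Lam b → z + u ∉ Lam b → z - u ∉ Lam b →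
      (KC b (z + u) + KC b (z - u) - 2 * KC b z) * (r2 b * (XC b z - XC b u)) = wdC b z

/-- The smoothed function `g`. -/
def S_B11 : Prop :=
  ∀ (k t : ℕ) [SqT k t] (m b : Ideal (OO k t)), m ≠ ⊥ → b ≠ ⊥ → PrI m (sN k t 2) →
    PrI b (ppb k t) → ∀ z : ℂ, z ∉ Lam (m * b) →
      gC m b z = ∑ u ∈ hs m b, wdC b z / (fr b * r2 b * (XC b z - XC b u))

open Classical in
/-- The framing: values, homogeneity, isogenies. -/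
def S_B12 : Prop :=
  ∀ (k t : ℕ) [SqT k t] (b : Ideal (OO k t)), b ≠ ⊥ → PrI b (ppb k t) →
    (S0 k t - ptS b ∈ Lam b ∨ S0 k t + ptS b ∈ Lam b) ∧
    wdC b (S0 k t) ≠ 0 ∧ fr b * r2 b = AC b * wdC b (S0 k t) ∧ fr b ^ 2 = AC b ^ 2 * r2 b ∧
    fr b = -6 * KC b (S0 k t) ∧
    (∀ α : OO k t, α ≠ 0 → α - 1 ∈ ppb k t → fr (sp α * b) = toC α * fr b) ∧
    (∀ α : OO k t, α ≠ 0 → α + 1 ∈ ppb k t → fr (sp α * b) = -toC α * fr b) ∧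
    ∀ a : Ideal (OO k t), a ≠ ⊥ → PrI a (ppb k t) → ∀ R : Finset ℂ, IsSys a b R →
      (∀ u ∈ R, u ∉ Lam b → XC b u ≠ 0) ∧
      AC b * fr (a * b) = fr b * (NI a * AC b + 3 * ∑ u ∈ R, (if u ∈ Lam b then 0 else 1 / XC b u))

/-- Injectivity of `Al` on the ideal classes. -/
def S_B13 : Prop :=
  ∀ (k t : ℕ) [SqT k t] (b b' : Ideal (OO k t)), b ≠ ⊥ → b' ≠ ⊥ → AC b = AC b' →
    ∃ α α' : OO k t, α ≠ 0 ∧ α' ≠ 0 ∧ sp α * b = sp α' * b'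

/-- Half systems exist. -/
def S_B14 : Prop :=
  ∀ (k t : ℕ) [SqT k t] (m b : Ideal (OO k t)), m ≠ ⊥ → b ≠ ⊥ → PrI m (sN k t 2) →
    IsHalf m b (hs m b) ∧ 2 * (hs m b).card + 1 = NI m

/-- Products over `E[l]` of the functions `X(z) - X(u)`, `u` in `E[m]`. -/
def S_B16 : Prop :=
  ∀ (k t : ℕ) [SqT k t] (l m b : Ideal (OO k t)), l ≠ ⊥ → m ≠ ⊥ → b ≠ ⊥ → PrI m (sN k t 2) →
    l ⊔ m = ⊤ → ∀ R : Finset ℂ, IsSys l b R → ∃ c : ℂ, c ≠ 0 ∧ ∀ z : ℂ, z ∉ Lam (l * m * b) →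
      ∏ v ∈ R, ∏ u ∈ hs m b, (XC b (z + v) - XC b u) =
        c * ∏ u ∈ hs m (l * b), (XC (l * b) z - XC (l * b) u)

/-! ## Part R: the numbers `Al`, `ρ`, `δ` (algebraicity, good reduction) -/

/-- `Al`, `ρ`, `δ` are algebraic, and the relations. -/
def S_R1 : Prop :=
  ∀ (k t : ℕ) [SqT k t] (b : Ideal (OO k t)), b ≠ ⊥ →
    io (aO b) = AC b ∧ io (rhO b) = rhC b ∧ io (dlO b) = dlC b ∧
    rhO b ^ 3 = aO b ^ 2 + 3 * aO b + 9 ∧ aO (ppb k t * b) * rhO b = aO b + 6 ∧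
    dlO (ppb k t * b) * rhO b = aO b - 3 ∧ dlO b ^ 3 = aO b ^ 3 - 27

/-- `Al` is integral; units. -/
def S_R2 : Prop :=
  ∀ (k t : ℕ) [SqT k t] (b : Ideal (OO k t)), b ≠ ⊥ → ∀ Q : Ideal ZZ, Npr Q →
    VP Q (aO b) ∧ VP Q (rhO b) ∧ VP Q (dlO b) ∧
    (¬ AbPb k t Q → UP Q (rhO b) ∧ UP Q (dlO b)) ∧
    (AbP k t Q → UP Q (aO b) ∧ TP Q 3 (aO (pp k t * b) - aO b ^ 3) ∧
      TP Q 3 (rhO (pp k t * b) - aO b ^ 2))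

/-- Injectivity modulo the primes above `𝔭`. -/
def S_R3 : Prop :=
  ∀ (k t : ℕ) [SqT k t] (b b' : Ideal (OO k t)), b ≠ ⊥ → b' ≠ ⊥ → ∀ P : Ideal ZZ, AbP k t P →
    MP P (aO b - aO b') → aO b = aO b'

/-- `X` is algebraic at torsion points; complex conjugation on `Om`. -/
def S_R4 : Prop :=
  (∀ (k t : ℕ) [SqT k t] (b : Ideal (OO k t)), b ≠ ⊥ → io (kpO b) = kpC b ∧
    ∀ z : ℂ, Tor k t z → io (xO b z) = XC b z) ∧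
  ∃ c : Gal(Om/ℚ), (∀ x : Om, io (c x) = (starRingEnd ℂ) (io x)) ∧
    ∀ (k t : ℕ) [SqT k t] (b : Ideal (OO k t)), b ≠ ⊥ →
      (∀ z : ℂ, Tor k t z → c (xO b z) * kpO (cjI b) =
        xO (cjI b) ((starRingEnd ℂ) z) - xO (cjI b) (ptT (cjI b))) ∧
      (∀ P : Ideal ZZ, AbP k t P → AbPb k t (c • P)) ∧ ∀ P : Ideal ZZ, AbPb k t P → AbP k t (c • P)

/-- The framing and `g` in `Om`. -/
def S_R5 : Prop :=
  ∀ (k t : ℕ) [SqT k t] (m b b' : Ideal (OO k t)), m ≠ ⊥ → b ≠ ⊥ → b' ≠ ⊥ →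
    PrI m (sN k t 6) → PrI b (ppb k t) → PrI b' (ppb k t) →
    fr b ≠ 0 ∧ aO b ≠ 0 ∧ io (rO b b') = fr b' / fr b ∧
    ∀ z : ℂ, Tor k t z → io (vO b z) = wdC b z / wdC b (S0 k t) ∧
      (z ∉ Lam b → vO b z ^ 2 = 4 * xO b z ^ 3 + (aO b * xO b z + 1) ^ 2) ∧
      (z ∉ Lam (m * b) → io (gO m b z) = gC m b z ∧
        gO m b z = ∑ u ∈ hs m b, vO b z * (aO b * (xO b z - xO b u))⁻¹)

/-! ## Part D: reduction -/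

/-- All primes not above `𝔭̄`: the kernel of reduction. -/
def S_D1 : Prop :=
  ∀ (k t : ℕ) [SqT k t] (b : Ideal (OO k t)), b ≠ ⊥ → ∀ Q : Ideal ZZ, Npr Q → ¬ AbPb k t Q →
    (∀ z z' : ℂ, IK Q b z → IK Q b z' → IK Q b (z + z')) ∧ (∀ z ∈ Lam b, IK Q b z) ∧
    (∀ (v : OO k t) (z : ℂ), IK Q b z → IK Q b (toC v * z)) ∧
    (∀ (a : Ideal (OO k t)) (z : ℂ), a ≠ ⊥ → IK Q b z → IK Q (a * b) z) ∧
    (∀ z : ℂ, IK Q b z → Qp Q b z) ∧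
    (∀ z z' : ℂ, Tor k t z → ¬ IK Q b z → IK Q b z' → MP Q (xO b (z + z') - xO b z)) ∧
    (∀ z z' : ℂ, Tor k t z → Tor k t z' → ¬ IK Q b z → ¬ IK Q b z' → MP Q (xO b z - xO b z') →
      IK Q b (z + z') ∨ IK Q b (z - z'))

/-- Primes above `𝔭`: more. -/
def S_D2 : Prop :=
  ∀ (k t : ℕ) [SqT k t] (b : Ideal (OO k t)), b ≠ ⊥ → ∀ P : Ideal ZZ, AbP k t P →
    IK P b (ptT b) ∧ ¬ IK P b (ptS b) ∧ ¬ IK P b (ptS b + ptT b) ∧ ¬ IK P b (ptS b - ptT b) ∧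
    (∀ z : ℂ, Tor k t z → ¬ IK P b z → ¬ IK P (pp k t * b) z ∧
      TP P 3 (xO (pp k t * b) z - xO b z ^ 3)) ∧
    (∀ z : ℂ, Tor k t z → ¬ IK P b z → PrI b (ppb k t) → VP P (vO b z)) ∧
    (∀ z : ℂ, Tor k t z → ¬ Qp P b z → ¬ IK P b z ∧ VP P (xO b z)) ∧
    (∀ z : ℂ, Tor k t z → ¬ IK P b z → ¬ IK P b (z + ptS b) → ¬ IK P b (z - ptS b) →
      UP P (xO b z)) ∧
    ∀ a : Ideal (OO k t), a ≠ ⊥ → PrI a (sN k t 3) → ∀ u ∈ Lam (a * b), u ∉ Lam b → UP P (xO b u)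

/-- Primes above a prime ideal of degree one, prime to `6`: Kronecker's congruence. -/
def S_D3 : Prop :=
  ∀ (k t : ℕ) [SqT k t] (q : Ideal (OO k t)) (l : ℕ), Deg1 q l → l ≠ 2 → l ≠ 3 →
    ∀ Q : Ideal ZZ, Npr Q → Abv Q q → ∀ b : Ideal (OO k t), b ≠ ⊥ →
      (∀ u ∈ Lam (q * b), IK Q b u) ∧ MP Q (aO (q * b) - aO b ^ l) ∧ MP Q (dlO (q * b) - dlO b ^ l) ∧
      ∀ z : ℂ, Tor k t z → ¬ IK Q b z → ¬ IK Q (q * b) z ∧ MP Q (xO (q * b) z - xO b z ^ l)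

/-- The points of order `q` in the kernel have the same valuation (for the ramification of the auxiliary
field): for `u ∈ Lam (q b)`, `u ∉ Lam b`, `q = (la)` principal, `la X(u) ^ ((l - 1)/2)` is a unit. -/
def S_D4 : Prop :=
  ∀ (k t : ℕ) [SqT k t] (la : OO k t) (l : ℕ), Deg1 (sp la) l → l ≠ 2 → l ≠ 3 → ∀ Q : Ideal ZZ,
    Npr Q → MP Q (toO la) → ∀ b : Ideal (OO k t), b ≠ ⊥ → ∀ u : ℂ, toC la * u ∈ Lam b → u ∉ Lam b →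
      UP Q (toO la * xO b u ^ ((l - 1) / 2))

/-- Theta units. -/
def S_D5 : Prop :=
  ∀ (k t : ℕ) [SqT k t] (m b : Ideal (OO k t)), m ≠ ⊥ → b ≠ ⊥ → PrI m (sN k t 6) →
    ∀ Q : Ideal ZZ, Npr Q → ∀ z : ℂ, Tor k t z → (∀ u ∈ Lam (m * b), ¬ Qp Q b (z + u)) →
      UP Q (Theta m b z)

/-- Theta units: congruences. -/
def S_D6 : Prop :=
  ∀ (k t : ℕ) [SqT k t] (m b : Ideal (OO k t)), m ≠ ⊥ → b ≠ ⊥ → PrI m (sN k t 6) →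
    ∀ Q : Ideal ZZ, Npr Q → ¬ MP Q 3 → ¬ Abv Q m → ∀ z : ℂ, Tor k t z →
    (∀ u ∈ Lam (m * b), ¬ Qp Q b (z + u)) →
    (∀ z' : ℂ, IK Q b z' → MP Q (Theta m b (z + z') - Theta m b z)) ∧
    ∀ (q : Ideal (OO k t)) (l : ℕ), Deg1 q l → l ≠ 2 → l ≠ 3 → Abv Q q →
      MP Q (Theta m (q * b) z - Theta m b z ^ l)

/-- Distribution of `Theta`, up to a constant. The constant does not depend on `z`, and it is `1` modulo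
the primes above `l`. -/
def S_D7 : Prop :=
  ∀ (k t : ℕ) [SqT k t] (l m b : Ideal (OO k t)), l ≠ ⊥ → m ≠ ⊥ → b ≠ ⊥ → PrI m (sN k t 6) →
    l ⊔ m = ⊤ → ∃ C : Om, C ≠ 0 ∧
      (∀ R : Finset ℂ, IsSys l b R → ∀ z : ℂ, Tor k t z → z ∉ Lam (l * m * b) →
        ∏ v ∈ R, Theta m b (z + v) = C * Theta m (l * b) z) ∧
      ∀ (p : ℕ) (Q : Ideal ZZ), Deg1 l p → p ≠ 2 → p ≠ 3 → Npr Q → Abv Q l → MP Q (C - 1)

/-- `Theta` is a well defined even function. -/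
def S_D8 : Prop :=
  ∀ (k t : ℕ) [SqT k t] (m b : Ideal (OO k t)), m ≠ ⊥ → b ≠ ⊥ → PrI m (sN k t 6) →
    (∀ S : Finset ℂ, IsHalf m b S → ∀ z : ℂ,
      ∏ u ∈ S, dlO b * xO b u ^ 2 * ((xO b z - xO b u) ^ 2)⁻¹ = Theta m b z) ∧
    (∀ z : ℂ, Theta m b (-z) = Theta m b z ∧ ∀ l ∈ Lam b, Theta m b (z + l) = Theta m b z) ∧
    (∀ (α : OO k t) (z : ℂ), α ≠ 0 → Theta m (sp α * b) z = Theta m b (toC α * z)) ∧
    ∀ z : ℂ, Tor k t z → z ∉ Lam (m * b) → Theta m b z ≠ 0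

/-- The framing and `g` at the primes above `𝔭`. -/
def S_D9 : Prop :=
  ∀ (k t : ℕ) [SqT k t] (P : Ideal ZZ), AbP k t P → ∀ b : Ideal (OO k t), b ≠ ⊥ → PrI b (ppb k t) →
    (∀ a : Ideal (OO k t), a ≠ ⊥ → PrI a (sN k t 3) → TP P 3 (rO b (a * b) - NI a)) ∧
    TP P 3 (3 * rO (pp k t * b) b - 1) ∧
    rO b (pp k t * b) * (aO (pp k t * b) + 6) = 3 * aO (pp k t * b) ∧
    ∀ m : Ideal (OO k t), m ≠ ⊥ → PrI m (sN k t 6) → ∀ z : ℂ, Tor k t z →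
      (∀ u ∈ Lam (m * b), ¬ Qp P b (z + u)) → VP P (gO m b z)

/-! ## Part E: Galois action -/

/-- The main theorem of complex multiplication, for `Gal(Om/K)`. -/
def S_E1 : Prop :=
  ∀ (k t : ℕ) [SqT k t] (n : Ideal (OO k t)), n ≠ ⊥ →
    (∀ τ ∈ GK k t, ∀ M : ℕ, 0 < M → ∃ a : Ideal (OO k t), Psi τ n a ∧ PrI a (sN k t M)) ∧
    (∀ (τ : Gal(Om/ℚ)) (a a' : Ideal (OO k t)), Psi τ n a → Psi τ n a' → Ray n a a') ∧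
    (∀ (τ : Gal(Om/ℚ)) (a a' : Ideal (OO k t)), Psi τ n a → Ray n a a' → Psi τ n a') ∧
    (∀ (τ τ' : Gal(Om/ℚ)) (a a' : Ideal (OO k t)), Psi τ n a → Psi τ' n a' →
      Psi (τ * τ') n (a * a')) ∧
    ∀ (τ : Gal(Om/ℚ)) (n' a : Ideal (OO k t)), Psi τ n a → n ≤ n' → Psi τ n' a

/-- Frobenius elements, almost all degree one primes. -/
def S_E2 : Prop :=
  ∀ (k t : ℕ) [SqT k t] (n : Ideal (OO k t)), n ≠ ⊥ → ∃ B : ℕ, 0 < B ∧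
    ∀ (q : Ideal (OO k t)) (l : ℕ), Deg1 q l → l.Coprime B → ∀ Q : Ideal ZZ, Npr Q → Abv Q q →
      ∀ τ ∈ GK k t, Fro Q l τ → Psi τ n q

/-- Frobenius elements at the primes above `3`. -/
def S_E3 : Prop :=
  ∀ (k t : ℕ) [SqT k t] (P : Ideal ZZ) (τ : Gal(Om/ℚ)), τ ∈ GK k t → Fro P 3 τ →
    ∀ n : Ideal (OO k t), n ≠ ⊥ →
      (AbP k t P → PrI n (pp k t) → Psi τ n (pp k t)) ∧ (AbPb k t P → PrI n (ppb k t) → Psi τ n (ppb k t))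

/-- Inertia. -/
def S_E4 : Prop :=
  ∀ (k t : ℕ) [SqT k t] (Q : Ideal ZZ), Npr Q → ∀ τ ∈ GK k t, τ ∈ Q.inertia Gal(Om/ℚ) →
    (∀ n : Ideal (OO k t), n ≠ ⊥ → (AbP k t Q → PrI n (pp k t) → Psi τ n (⊤ : Ideal (OO k t))) ∧
      (AbPb k t Q → PrI n (ppb k t) → Psi τ n (⊤ : Ideal (OO k t)))) ∧
    ∀ (v : OO k t) (b δ n : Ideal (OO k t)), n ≠ ⊥ → b ≠ ⊥ → δ ≠ ⊥ → n ≤ δ →
      ¬ Abv Q δ → Psi τ n (sp v) → ∀ z ∈ Lam (δ * b), xO b (toC v * z) = xO b z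

/-- The cyclotomic character. -/
def S_E6 : Prop :=
  ∀ (k t : ℕ) [SqT k t] (τ : Gal(Om/ℚ)) (N : ℕ) (a : Ideal (OO k t)), τ ∈ GK k t → 0 < N →
    Psi τ (sN k t N) a → ∀ ζ : Om, ζ ^ N = 1 → τ ζ = ζ ^ NI a

/-- Surjectivity. -/
def S_E7 : Prop :=
  ∀ (k t : ℕ) [SqT k t] (n a : Ideal (OO k t)), n ≠ ⊥ → a ≠ ⊥ → PrI a n → ∃ τ ∈ GK k t, Psi τ n a

/-- Galois theory for `FixI`. -/
def S_E8 : Prop :=
  ∀ (k t : ℕ) [SqT k t] (n : Ideal (OO k t)) (H : Ideal (OO k t) → Prop), n ≠ ⊥ → H ⊤ →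
    (∀ a, H a → a ≠ ⊥ ∧ PrI a n) → (∀ a a', H a → Ray n a a' → H a') →
    (∀ a a', H a → H a' → H (a * a')) →
    FiniteDimensional ℚ (FixI n H) ∧ KQ k t ≤ FixI n H ∧
    ∀ τ ∈ GK k t, ∀ a : Ideal (OO k t), Psi τ n a → ((∀ x ∈ FixI n H, τ x = x) ↔ H a)

/-- Complex conjugation and the Galois action; the fields are normal over `ℚ`. -/
def S_E9 : Prop :=
  ∀ (k t : ℕ) [SqT k t],
    (∀ c : Gal(Om/ℚ), (∀ x : Om, io (c x) = (starRingEnd ℂ) (io x)) → c * c = 1 ∧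
      c (wO k t) = t - wO k t ∧
      ∀ τ ∈ GK k t, c * τ * c ∈ GK k t ∧ ∀ n a : Ideal (OO k t), n ≠ ⊥ → Psi τ n a →
        Psi (c * τ * c) (cjI n) (cjI a)) ∧
    (∀ (n : Ideal (OO k t)) (H : Ideal (OO k t) → Prop), n ≠ ⊥ → H ⊤ →
      (∀ a, H a → a ≠ ⊥ ∧ PrI a n) → (∀ a a', H a → Ray n a a' → H a') →
      (∀ a a', H a → H a' → H (a * a')) → cjI n = n → (∀ a, H a → H (cjI a)) →
      ∀ τ : Gal(Om/ℚ), ∀ x ∈ FixI n H, τ x ∈ FixI n H) ∧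
    ∀ f : ℕ, Fok f →
      (∀ τ : Gal(Om/ℚ), ∀ x ∈ Mf k t f, τ x ∈ Mf k t f) ∧
      (∀ (N : ℕ) (τ : Gal(Om/ℚ)), 1 ≤ N → ∀ x ∈ Mn k t f N, τ x ∈ Mn k t f N) ∧
      (∀ τ : Gal(Om/ℚ), ∀ x ∈ Lf k t f, τ x ∈ Lf k t f) ∧
      (∀ (N : ℕ) (τ : Gal(Om/ℚ)), 1 ≤ N → ∀ x ∈ Ln k t f N, τ x ∈ Ln k t f N) ∧
      Lf k t f ≤ Mf k t f ∧ ∀ N : ℕ, 1 ≤ N → Ln k t f N ≤ Mn k t f N

/-- Galois action on the other numbers, on the framing, on `g` and on `Theta`. -/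
def S_E10 : Prop :=
  ∀ (k t : ℕ) [SqT k t] (τ : Gal(Om/ℚ)) (n a : Ideal (OO k t)), n ≠ ⊥ → τ ∈ GK k t → Psi τ n a →
    (∀ b : Ideal (OO k t), b ≠ ⊥ → τ (rhO b) = rhO (a * b) ∧ τ (dlO b) = dlO (a * b) ∧
      τ (kpO b) = kpO (a * b)) ∧
    (n ≤ ppb k t →
      (∀ b c : Ideal (OO k t), b ≠ ⊥ → PrI b (ppb k t) → c ≠ ⊥ → PrI c (ppb k t) →
        τ (rO b c) = rO (a * b) (a * c)) ∧
      (∀ b : Ideal (OO k t), b ≠ ⊥ → PrI b (ppb k t) → ∀ z ∈ Lam (n * b),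
        τ (vO b z) = vO (a * b) z) ∧
      ∀ m b : Ideal (OO k t), m ≠ ⊥ → b ≠ ⊥ → PrI m (sN k t 6) → n ≤ m → PrI b (ppb k t) →
        ∀ z ∈ Lam (n * b), z ∉ Lam (m * b) → τ (gO m b z) = gO m (a * b) z) ∧
    ∀ m b : Ideal (OO k t), m ≠ ⊥ → b ≠ ⊥ → PrI m (sN k t 6) → n ≤ m → ∀ z ∈ Lam (n * b),
      τ (Theta m b z) = Theta m (a * b) z

end Pool.Agent.DT
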