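import Pool.Agent.Lib.DT.G.All
import Pool.Agent.Lib.DT.H3.AllH
import Pool.Agent.Lib.DT.PI.Top

/-!
# Theorem DT (`mu = 0` for `p = 3`, `3` split in `K`): final assembly
-/

set_option autoImplicit false

noncomputable section

namespace Pool.Agent.DT

theorem pIn : PI.PIn where
  O2 := aO2
  O6 := aO6
  O7 := aO7
  O9 := aO9
  B1 := hB.b1
  B7 := hB.b7
  R1 := aR1 hB
  R4 := aR4 hB
  E1 := aE1 hB
  E6 := aE6 hB
  E7 := aE7 hB
  E8 := aE8 hB
  GR := G.cGR
  GM := G.cGM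
  G3 := G.cG3
  G := G.cG
  H := H3.bH

/-- **Theorem DT.** -/
theorem thmDT : ThmDT := PI.thmDT_of pIn

end Pool.Agent.DT
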