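import Pool.Agent.Lib.DT.Iface

/-!
# Theorem DT (`p = 3`): the statements of Part B as a structure

`DT/D/All.lean` proves `aR1 (B : HB) : S_R1`, .., `aD9 (B : HB) : S_D9`; `DT/B/All.lean` proves `hB : HB`.
-/

set_option autoImplicit false

noncomputable section

namespace Pool.Agent.DT

/-- The statements of Part B. -/
structure HB : Prop where
  b1 : S_B1
  b2 : S_B2
  b3 : S_B3
  b4 : S_B4
  b5 : S_B5
  b6 : S_B6
  b7 : S_B7
  b7k : S_B7k
  b8 : S_B8
  b9 : S_B9
  b10 : S_B10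
  b11 : S_B11
  b12 : S_B12
  b13 : S_B13
  b14 : S_B14
  b16 : S_B16

end Pool.Agent.DT
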