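import Pool.Agent.Lib.DT.Iface

/-!
# Theorem DT (`p = 3`): the interface of part C (theta series) and of the input of part V

Every `S_...` is a statement which is proved by ONE part and used by others. Nothing is proved here.
A false or awkward statement: mail helper67 at once.

`f` prime to `3`, `4 ∣ f` (`Fok f`); `m` (the smoothing ideal) prime to `3 f` (`FM f m`); `b` prime to
`f 𝔭̄`. `M` is prime to `3` and a multiple of `lev f m R`; the LEVEL is `3 M`.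
-/

set_option autoImplicit false

open scoped Pointwise Topology
open Filter

noncomputable section

namespace Pool.Agent.DT

open Pool.Agent.MuZ Pool.Agent.FW NumberField
open Pool.Agent.DI (io ofC io_inj exists_io io_ofC ofC_io VP MP UP TP ex)

/-! ## Definitions -/

/-- The conditions on `b`. -/
structure FB {k t : ℕ} (f : ℕ) (b : Ideal (OO k t)) : Prop where
  ne : b ≠ ⊥
  cop : PrI b (cnd k t f)

/-- The conditions on the set `R`. -/
def FR {k t : ℕ} (f : ℕ) (R : Finset (Ideal (OO k t))) : Prop :=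
  ∀ b ∈ R, b ≠ ⊥ ∧ PrI b (sN k t (3 * f))

/-- The minimal level (prime to `3`). -/
def lev {k t : ℕ} (f : ℕ) (m : Ideal (OO k t)) (R : Finset (Ideal (OO k t))) : ℕ :=
  Dk k t * f ^ 2 * (NI m * ∏ b ∈ R, NI b) ^ 3

/-- `3 M` is a level for `R`. -/
structure IsLv {k t : ℕ} (f : ℕ) (m : Ideal (OO k t)) (R : Finset (Ideal (OO k t))) (M : ℕ) :
    Prop where
  pos : 0 < M
  cop : M.Coprime 3
  dvd : lev f m R ∣ M

/-- The integer `3 f² N(m) N(b) |x|²`, `x ∈ v₀ + Lam (m b)`. -/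
def qN {k t : ℕ} (f : ℕ) (m b : Ideal (OO k t)) (x : ℂ) : ℤ :=
  ⌊3 * (f : ℝ) ^ 2 * NI m * NI b * ‖x‖ ^ 2⌋

open Classical in
/-- The finite set of the `v ∈ v₀ + Lam b` with `3 f² N(b) |v|² = n`. -/
def vN {k t : ℕ} (f : ℕ) (b : Ideal (OO k t)) (n : ℕ) : Finset ℂ :=
  if h : {v : ℂ | v - v0 k t f ∈ Lam b ∧ 3 * (f : ℝ) ^ 2 * NI b * ‖v‖ ^ 2 = n}.Finite then h.toFinset
  else ∅

open Classical in
/-- The coefficient of `e(n z)` in `fr(b) ThM f m b z`, an element of `K`. -/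
def cM {k t : ℕ} (f : ℕ) (m b : Ideal (OO k t)) (n : ℕ) : ℂ :=
  ∑ v ∈ vN f (m * b) n, (if v - v0 k t f ∈ Lam b then (1 - NI m : ℂ) else 1) * v⁻¹

/-! ## Part C -/

/-- Transformation under `Γ_0(3 M)`, on the values. -/
def S_C1 : Prop :=
  ∀ (k t : ℕ) [SqT k t] (f M : ℕ) (m b : Ideal (OO k t)), FM f m → FB f b → PrI b (sN k t 3) →
    IsLv f m {b} M → ∀ (a b' c d : ℤ), G0 (3 * M) a b' c d → a ≠ 0 ∧ d ≠ 0 ∧
      ∀ r : ℚ, r.den.Coprime M → (c : ℚ) * r + d ≠ 0 ∧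
        etaM f m b ((a * r + b') / (c * r + d)) =
          (eps k t d : Om) * (jacobiSym a 3 : Om) *
            (etaM f m (sp (a : OO k t) * b) r - etaM f m (sp (a : OO k t) * b) 0) + etaM f m b (b' / d)

/-- Transformation under `Γ_1(3 M)`, on the upper half plane. -/
def S_C2 : Prop :=
  ∀ (k t : ℕ) [SqT k t] (f M : ℕ) (m b : Ideal (OO k t)), FM f m → FB f b → PrI b (sN k t 3) →
    IsLv f m {b} M → ∀ (a b' c d : ℤ), G0 (3 * M) a b' c d → (3 * M : ℤ) ∣ d - 1 →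
      ∀ z : ℂ, 0 < z.im → ThM f m b ((a * z + b') / (c * z + d)) =
        ThM f m b z + io (etaM f m b (b' / d) - etaM f m b 0)

/-- Expansions at all cusps. -/
def S_C3 : Prop :=
  ∀ (k t : ℕ) [SqT k t] (f M : ℕ) (m b : Ideal (OO k t)), FM f m → FB f b → PrI b (sN k t 3) →
    IsLv f m {b} M → ∀ (a b' c d : ℤ), a * d - b' * c = 1 →
    ∃ (c0 : ℂ) (cf : ℕ → ℂ) (C : ℝ), (∀ n, ‖cf n‖ ≤ C * (n + 1) ^ 3) ∧ ∀ z : ℂ, 0 < z.im →
      HasSum (fun n : ℕ => cf n * ex ((n + 1) * z / (9 * M)))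
        (ThM f m b ((a * z + b') / (c * z + d)) - c0)

/-- The values: the limit exists, it is algebraic, and the formula; `U` is a system of representatives
of `(1/n) Lam b / Lam b`. -/
def S_C4 : Prop :=
  ∀ (k t : ℕ) [SqT k t] (f : ℕ) (m b : Ideal (OO k t)), FM f m → FB f b → ∀ (c : ℤ) (n : ℕ), 0 < n →
    n.Coprime (NI m) →
    Tendsto (fun y : ℝ => ThM f m b (((c / n : ℚ) : ℂ) + y * Complex.I)) (𝓝[>] 0)
      (𝓝 (hM f m b (c / n))) ∧
    io (etaM f m b (c / n)) = hM f m b (c / n) ∧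
    ∀ U : Finset ℂ, IsSys (sN k t n) b U →
      (∀ u ∈ U, (qN f m b (v0 k t f + n * u) : ℝ) =
        3 * (f : ℝ) ^ 2 * NI m * NI b * ‖v0 k t f + n * u‖ ^ 2) ∧
      etaM f m b (c / n) = (n : Om)⁻¹ *
        ∑ u ∈ U, zet n ^ (c * qN f m b (v0 k t f + n * u)) * gO m b (v0 k t f / n + u)

/-- The operator `U_3`: `(γ) = 𝔭 c`, `γ = 1` modulo `f 𝔭̄`. -/
def S_C5 : Prop :=
  ∀ (k t : ℕ) [SqT k t] (f : ℕ) (m b : Ideal (OO k t)), FM f m → FB f b →
    ∀ (γ : OO k t) (c : Ideal (OO k t)), sp γ = pp k t * c → γ - 1 ∈ cnd k t f → γ ≠ 0 →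
    FB f (c * b) ∧ ∀ r : ℚ, r.den.Coprime (NI m) →
      ∑ j ∈ Finset.range 3, etaM f m b ((r + j) / 3) =
        3 * rO b (c * b) / toO γ * etaM f m (c * b) r

/-- Class functions, period. -/
def S_C6 : Prop :=
  ∀ (k t : ℕ) [SqT k t] (f : ℕ) (m b : Ideal (OO k t)), FM f m → FB f b →
    (∀ b' : Ideal (OO k t), FB f b' → Ray (cnd k t f) b b' →
      (∀ z : ℂ, ThM f m b z = ThM f m b' z) ∧ ∀ r : ℚ, etaM f m b r = etaM f m b' r) ∧
    ∀ r : ℚ, etaM f m b (r + 1) = etaM f m b r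

/-- Holomorphy; the `q`-expansion; the finite sets `vN`. -/
def S_C7 : Prop :=
  ∀ (k t : ℕ) [SqT k t] (f : ℕ) (m b : Ideal (OO k t)), FM f m → FB f b →
    DifferentiableOn ℂ (ThM f m b) {z | 0 < z.im} ∧
    (∀ (n : ℕ) (v : ℂ), v ∈ vN f (m * b) n ↔
      v - v0 k t f ∈ Lam (m * b) ∧ 3 * (f : ℝ) ^ 2 * NI (m * b) * ‖v‖ ^ 2 = n) ∧
    vN f (m * b) 0 = ∅ ∧ (∃ C : ℝ, ∀ n : ℕ, ‖cM f m b n‖ ≤ C * (n + 1) ^ 2) ∧
    ∀ z : ℂ, 0 < z.im → HasSum (fun n : ℕ => cM f m b n / fr b * ex (n * z)) (ThM f m b z)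

/-- The Galois action on the values. -/
def S_C8 : Prop :=
  ∀ (k t : ℕ) [SqT k t] (f : ℕ) (m b : Ideal (OO k t)), FM f m → FB f b → ∀ r : ℚ,
    r.den.Coprime (NI m) → ∀ τ ∈ GK k t, ∀ a : Ideal (OO k t), Psi τ (cnd k t f) a →
      τ (etaM f m b r) = etaM f m (a * b) r

/-- Integrality at the primes above `𝔭`. -/
def S_C9 : Prop :=
  ∀ (k t : ℕ) [SqT k t] (f M : ℕ) (m b : Ideal (OO k t)), FM f m → FB f b → PrI b (sN k t 3) →
    IsLv f m {b} M → ∀ r : ℚ, r.den.Coprime M → ∀ P : Ideal ZZ, AbP k t P → VP P (etaM f m b r)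

/-! ## The input of part V -/

/-- The functions `η_χ`: integrality, period; transformation under `Γ_0(3 M)`; the eigenvalue of `U_3` is
`χ(𝔭)` modulo `P`. -/
def S_V : Prop :=
  ∀ (k t : ℕ) [SqT k t] (f M : ℕ) (m : Ideal (OO k t)) (R : Finset (Ideal (OO k t))), FM f m → FR f R →
    IsRC (cnd k t f) R → IsLv f m R M → ∀ χ : Ideal (OO k t) → Om, IsChi (cnd k t f) χ →
    (∀ P : Ideal ZZ, AbP k t P → ∀ r : ℚ, r.den.Coprime M → VP P (etaX f m R χ r)) ∧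
    (∀ r : ℚ, etaX f m R χ (r + 1) = etaX f m R χ r) ∧
    (∀ (a b c d : ℤ), G0 (3 * M) a b c d → ∀ r : ℚ, r.den.Coprime M →
      (c : ℚ) * r + d ≠ 0 ∧ ((a * r + b) / (c * r + d) : ℚ).den.Coprime M ∧
      etaX f m R χ ((a * r + b) / (c * r + d)) -
          (eps k t d : Om) * (jacobiSym d 3 : Om) * χ (sp (d : OO k t)) * etaX f m R χ r =
        etaX f m R χ (b / d) -
          (eps k t d : Om) * (jacobiSym d 3 : Om) * χ (sp (d : OO k t)) * etaX f m R χ 0) ∧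
    ∀ P : Ideal ZZ, AbP k t P → ∀ r : ℚ, r.den.Coprime M →
      MP P (∑ j ∈ Finset.range 3, etaX f m R χ ((r + j) / 3) - χ (pp k t) * etaX f m R χ r)

/-- **Proposition F.** For every character `χ` of order prime to `3` (also `χ = 1`), every smoothing ideal
`m ≠ 1`, and both signs: the function `η_χ(r) ± η_χ(-r)` modulo `P` is not constant on the `Γ_1(3 M)`-orbit
of `0`. -/
def S_F : Prop :=
  ∀ (k t : ℕ) [SqT k t] (f M : ℕ) (m : Ideal (OO k t)) (R : Finset (Ideal (OO k t))), FM f m → FR f R →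
    IsRC (cnd k t f) R → IsLv f m R M → m ≠ ⊤ → ∀ χ : Ideal (OO k t) → Om, IsChi (cnd k t f) χ →
    ∀ e : ℤ, (e = 1 ∨ e = -1) → ∀ P : Ideal ZZ, AbP k t P →
      ∃ a b c d : ℤ, G0 (3 * M) a b c d ∧ (3 * M : ℤ) ∣ d - 1 ∧
        ¬ MP P (etaX f m R χ (b / d) + e * etaX f m R χ (-(b / d)) - (1 + e) * etaX f m R χ 0)

end Pool.Agent.DT
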