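import Pool.Agent.Lib.DT.IfaceC

/-!
# Theorem DT (`p = 3`): the interface of part F (non-constancy)

Note F' (`p = 3`) of helper67. `S_F` is in `IfaceC.lean`; the statements here are the division of part F:
`S_Kf`, `S_F1`, `S_Lead`, `S_Psi`, `S_FH`. Compare `DK/IfaceF.lean`. A false or awkward statement: mail
helper67 at once.

The second function of DK (`B = AF f (cjI m) ..`) is replaced by `B(z) = conj A(- conj z)`: its coefficients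
are the conjugates of those of `A`; at the primes above `𝔭̄` the coefficients of `A` are divisible by `27`.
-/

set_option autoImplicit false

open scoped Pointwise Topology MatrixGroups
open Filter

noncomputable section

namespace Pool.Agent.DT

open Pool.Agent.MuZ Pool.Agent.FW NumberField
open Pool.Agent.DI (io ofC io_inj exists_io io_ofC ofC_io VP MP UP TP ex)

/-! ## The ray class field modulo `f 𝔭̄` -/

/-- The ray class field modulo `f 𝔭̄`. -/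
def Kf (k t f : ℕ) : IntermediateField ℚ Om :=
  FixI (cnd k t f) (fun a : Ideal (OO k t) => Ray (cnd k t f) a ⊤)

/-- `σ b` acts as the ideal `b`. -/
structure IsSig (k t f : ℕ) (σ : Ideal (OO k t) → Gal(Om/ℚ)) : Prop where
  mem : ∀ b : Ideal (OO k t), FB f b → σ b ∈ GK k t
  psi : ∀ b : Ideal (OO k t), FB f b → Psi (σ b) (cnd k t f) b

/-- `c` is the complex conjugation of `Om`. -/
def IsCj (c : Gal(Om/ℚ)) : Prop := ∀ x : Om, io (c x) = (starRingEnd ℂ) (io x)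

/-- Galois theory of `Kf` (normal over `K`, not over `ℚ`): the group is the ray class group, unramified at
the primes above `𝔭`, Frobenius elements there. -/
def S_Kf : Prop :=
  ∀ (k t : ℕ) [SqT k t] (f : ℕ), Fok f →
    FiniteDimensional ℚ (Kf k t f) ∧ wO k t ∈ Kf k t f ∧ (∃ σ, IsSig k t f σ) ∧
    (∀ τ ∈ GK k t, ∀ x ∈ Kf k t f, τ x ∈ Kf k t f) ∧
    (∀ x : Om, (∀ τ ∈ GK k t, τ x = x) → x ∈ KQ k t) ∧
    (∀ τ ∈ GK k t, ∀ τ' ∈ GK k t, ∀ a a' : Ideal (OO k t), Psi τ (cnd k t f) a →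
      Psi τ' (cnd k t f) a' → ((∀ x ∈ Kf k t f, τ x = τ' x) ↔ Ray (cnd k t f) a a')) ∧
    (∀ P : Ideal ZZ, AbP k t P → ∀ τ ∈ GK k t, ∀ τ' ∈ GK k t,
      (∀ x ∈ Kf k t f, IsIntegral ℤ x → MP P (τ x - τ' x)) → ∀ x ∈ Kf k t f, τ x = τ' x) ∧
    (∀ P : Ideal ZZ, AbP k t P → ∀ x ∈ Kf k t f, MP P x → VP P (x / 3)) ∧
    (∀ P : Ideal ZZ, AbP k t P → ∃ φ ∈ GK k t, Fro P 3 φ) ∧
    (∃ c : Gal(Om/ℚ), IsCj c) ∧ ∀ c : Gal(Om/ℚ), IsCj c → c * c = 1 ∧ c (wO k t) = t - wO k t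

/-! ## The function `A` -/

/-- The function `A(z) = N0 ∑ σ_b(β) ThM f m b z`. -/
def AF {k t : ℕ} (f : ℕ) (m : Ideal (OO k t)) (R : Finset (Ideal (OO k t)))
    (σ : Ideal (OO k t) → Gal(Om/ℚ)) (N0 : ℕ) (β : Om) (z : ℂ) : ℂ :=
  N0 * ∑ b ∈ R, io (σ b β) * ThM f m b z

/-- The coefficients of the `q`-expansion of `fr(1) A(z)`, in `Om`. -/
def aF {k t : ℕ} (f : ℕ) (m : Ideal (OO k t)) (R : Finset (Ideal (OO k t)))
    (σ : Ideal (OO k t) → Gal(Om/ℚ)) (N0 : ℕ) (β : Om) (n : ℕ) : Om :=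
  N0 * ∑ b ∈ R, σ b β * rO b ⊤ * ofC (cM f m b n)

/-- The power series `fr(1) A`. -/
def uF {k t : ℕ} (f : ℕ) (m : Ideal (OO k t)) (R : Finset (Ideal (OO k t)))
    (σ : Ideal (OO k t) → Gal(Om/ℚ)) (N0 : ℕ) (β : Om) : PowerSeries Om :=
  PowerSeries.mk (aF f m R σ N0 β)

/-- `b1` is the class of the leading coefficient: `(3 + f w) m b1 ~ 𝔭` modulo `f 𝔭̄`. -/
def Ld {k t : ℕ} (f : ℕ) (m b1 : Ideal (OO k t)) : Prop :=
  Ray (cnd k t f) (sp (⟨3, f⟩ : OO k t) * (m * b1)) (pp k t)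

/-- **F1.** If Proposition F is false for the sign `e`: there is `β` such that `A = AF f m R σ N0 β` has
periods `α(g)` in `O`, with `α(g) + e α(g')` in `𝔭`, `g' = (a -b; -c d)`. The coefficients of `A` are
divisible by `27` at all primes above `𝔭̄`. -/
def S_F1 : Prop :=
  ∀ (k t : ℕ) [SqT k t] (f M : ℕ) (m : Ideal (OO k t)) (R : Finset (Ideal (OO k t))), FM f m → FR f R →
    IsRC (cnd k t f) R → IsLv f m R M → ∀ χ : Ideal (OO k t) → Om, IsChi (cnd k t f) χ →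
    ∀ e : ℤ, (e = 1 ∨ e = -1) →
    ∀ P : Ideal ZZ, AbP k t P → ∀ σ : Ideal (OO k t) → Gal(Om/ℚ), IsSig k t f σ →
    (∀ a b c d : ℤ, G0 (3 * M) a b c d → (3 * M : ℤ) ∣ d - 1 →
      MP P (etaX f m R χ (b / d) + e * etaX f m R χ (-(b / d)) - (1 + e) * etaX f m R χ 0)) →
    ∃ (N0 : ℕ) (β : Om), N0.Coprime 3 ∧ β ∈ Kf k t f ∧
      (∀ b1 ∈ R, Ld f m b1 → UP P (σ b1 β)) ∧ (∀ τ ∈ GK k t, VP P (τ β)) ∧
      (∀ Q : Ideal ZZ, AbPb k t Q → ∀ n : ℕ, VP Q (aF f m R σ N0 β n / 27)) ∧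
      ∀ a b c d : ℤ, G0 (3 * M) a b c d → (3 * M : ℤ) ∣ d - 1 → ∃ α α' : OO k t,
        α + e * α' ∈ pp k t ∧ ∀ z : ℂ, 0 < z.im →
          AF f m R σ N0 β ((a * z + b) / (c * z + d)) = AF f m R σ N0 β z + toC α ∧
          AF f m R σ N0 β ((a * z - b) / (-c * z + d)) = AF f m R σ N0 β z + toC α'

/-- The coefficients: `u_0 = 0`, `u_1` is a unit. -/
def S_Lead : Prop :=
  ∀ (k t : ℕ) [SqT k t] (f : ℕ) (m : Ideal (OO k t)) (R : Finset (Ideal (OO k t))), FM f m → FR f R →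
    IsRC (cnd k t f) R → ∀ σ : Ideal (OO k t) → Gal(Om/ℚ), IsSig k t f σ → ∀ (N0 : ℕ) (β : Om),
      β ∈ Kf k t f →
      (∀ n : ℕ, aF f m R σ N0 β n ∈ Kf k t f) ∧ aF f m R σ N0 β 0 = 0 ∧
      (∀ z : ℂ, 0 < z.im → HasSum (fun n : ℕ => io (aF f m R σ N0 β n) * ex z ^ n)
        (fr (⊤ : Ideal (OO k t)) * AF f m R σ N0 β z)) ∧
      (m ≠ ⊤ → ∀ P : Ideal ZZ, AbP k t P → N0.Coprime 3 → (∀ b1 ∈ R, Ld f m b1 → UP P (σ b1 β)) →
        UP P (aF f m R σ N0 β 1))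

/-! ## The model -/

/-- `ϰ = Al(1)⁻³`. -/
def kaO (k t : ℕ) : Om := (aO (⊤ : Ideal (OO k t)) ^ 3)⁻¹

/-- The relations between `u`, `T = T(u)`, `W = W(u)`: the curve `y² + x y + ϰ y = x³`, `x = T/W`,
`y = -1/W`, and `dx/(2 y + x + ϰ) = du`. -/
structure TWr {R : Type} [CommRing R] (ka : R) (u T W : PowerSeries R) : Prop where
  curve : W = T ^ 3 + T * W + PowerSeries.C ka * W ^ 2
  diff : PowerSeries.derivative R T * W - T * PowerSeries.derivative R W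
    = (T - 2 + PowerSeries.C ka * W) * W * PowerSeries.derivative R u
  T0 : PowerSeries.coeff 0 T = 0
  T1 : PowerSeries.coeff 1 T = PowerSeries.coeff 1 u
  W0 : PowerSeries.coeff 0 W = 0
  W1 : PowerSeries.coeff 1 W = 0
  W2 : PowerSeries.coeff 2 W = 0
  W3 : PowerSeries.coeff 3 W = PowerSeries.coeff 1 u ^ 3

/-- The series with the conjugate coefficients. -/
def cjS (c : Gal(Om/ℚ)) (F : PowerSeries Om) : PowerSeries Om :=
  PowerSeries.mk fun n => c (PowerSeries.coeff n F)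

/-- **F2, F3.** The function `Ψ = G(A) conj(G(A(- conj z)))^(-e)`, `G³ = Y`, and its expansions. -/
def S_Psi : Prop :=
  ∀ (k t : ℕ) [SqT k t] (f M : ℕ) (m : Ideal (OO k t)) (R : Finset (Ideal (OO k t))), FM f m →
    FR f R → IsRC (cnd k t f) R → IsLv f m R M →
    ∀ σ : Ideal (OO k t) → Gal(Om/ℚ), IsSig k t f σ → ∀ c : Gal(Om/ℚ), IsCj c →
    ∀ (N0 : ℕ) (β : Om), β ∈ Kf k t f → aF f m R σ N0 β 1 ≠ 0 → ∀ e : ℤ, (e = 1 ∨ e = -1) →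
    ∃ Ψ : ℂ → ℂ, (∀ z : ℂ, 0 < z.im → MeromorphicAt Ψ z) ∧
      (∀ z z' : ℂ, 0 < z.im → 0 < z'.im → ∀ α α' : OO k t, α + e * α' ∈ pp k t →
        AF f m R σ N0 β z' = AF f m R σ N0 β z + toC α →
        AF f m R σ N0 β (-(starRingEnd ℂ) z') = AF f m R σ N0 β (-(starRingEnd ℂ) z) + toC α' →
        Ψ z' = Ψ z) ∧
      (∀ γ : SL(2, ℤ), ∃ (F : ℂ → ℂ) (Y : ℝ), MeromorphicAt F 0 ∧
        ∀ z : UpperHalfPlane, Y < z.im → Ψ ((γ • z : UpperHalfPlane) : ℂ) =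
          F (Complex.exp (2 * Real.pi * Complex.I * (z : ℂ) / ((9 * M : ℕ) : ℂ)))) ∧
      ∃ (T W Z ψ : PowerSeries Om) (γ : Om) (Y : ℝ) (j : ℕ) (L : IntermediateField ℚ Om),
        FiniteDimensional ℚ L ∧ (∀ n, PowerSeries.coeff n ψ ∈ L) ∧
        TWr (kaO k t) (uF f m R σ N0 β) T W ∧ (Z = cjS c W ∨ Z * cjS c W = PowerSeries.X ^ 6) ∧
        ψ ≠ 0 ∧ γ ≠ 0 ∧ ψ ^ 3 * W * Z = PowerSeries.C γ * PowerSeries.X ^ 6 ∧
        ∀ z : ℂ, Y < z.im → HasSum (fun n : ℕ => io (PowerSeries.coeff n ψ) * ex z ^ n)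
          (ex z ^ j * Ψ z)

/-- **F4 - F6.** The contradiction. -/
def S_FH : Prop :=
  ∀ (k t : ℕ) [SqT k t] (f : ℕ) (m : Ideal (OO k t)) (R : Finset (Ideal (OO k t))), FM f m →
    FR f R → IsRC (cnd k t f) R → ∀ P : Ideal ZZ, AbP k t P →
    ∀ σ : Ideal (OO k t) → Gal(Om/ℚ), IsSig k t f σ → ∀ c : Gal(Om/ℚ), IsCj c →
    ∀ (N0 : ℕ) (β : Om), β ∈ Kf k t f → (∀ τ ∈ GK k t, VP P (τ β)) →
    UP P (aF f m R σ N0 β 1) →
    (∀ Q : Ideal ZZ, AbPb k t Q → ∀ n : ℕ, VP Q (aF f m R σ N0 β n / 27)) →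
    ∀ (T W Z ψ Q1 Q2 : PowerSeries Om) (γ : Om),
      TWr (kaO k t) (uF f m R σ N0 β) T W → (Z = cjS c W ∨ Z * cjS c W = PowerSeries.X ^ 6) →
      ψ ≠ 0 → γ ≠ 0 → ψ ^ 3 * W * Z = PowerSeries.C γ * PowerSeries.X ^ 6 →
      Q2 ≠ 0 → Q2 * ψ = Q1 → ∀ K' : IntermediateField ℚ Om, FiniteDimensional ℚ K' →
      (∀ n, PowerSeries.coeff n Q1 ∈ K') → (∀ n, PowerSeries.coeff n Q2 ∈ K') →
      (∀ n, VP P (PowerSeries.coeff n Q1)) → (∀ n, VP P (PowerSeries.coeff n Q2)) → False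

end Pool.Agent.DT
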