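import Pool.Agent.Lib.DT.Iface

/-!
# Theorem DT (`p = 3`): internal statements of the parts R, D, E

`S_AbQ`: proved in part R (`DT/R`); `S_XOm`, `S_QpC`, `S_HsP`: proved in part D (`DT/D`), author helper46.
-/

set_option autoImplicit false

open scoped Pointwise Topology nonZeroDivisors
open Filter

noncomputable section

namespace Pool.Agent.DT

open Pool.Agent.MuZ Pool.Agent.FW NumberField IsDedekindDomain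
open Pool.Agent.DI (io ofC io_inj exists_io io_ofC ofC_io VP MP UP TP ex)

/-- `W²(u) = 4 X³ + (Al X + 1)²` in `Om`. -/
def W2 {k t : ℕ} (b : Ideal (OO k t)) (u : ℂ) : Om := 4 * xO b u ^ 3 + (aO b * xO b u + 1) ^ 2

/-- Primes of `ZZ` and primes of `O`. -/
def S_AbQ : Prop :=
  ∀ (k t : ℕ) [SqT k t],
    (∀ Q : Ideal ZZ, Npr Q → ∃ q : Ideal (OO k t), q.IsPrime ∧ q ≠ ⊥ ∧
      (∀ v : OO k t, v ∈ q ↔ MP Q (toO v)) ∧ ∀ a : Ideal (OO k t), Abv Q a ↔ a ≤ q) ∧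
    (∀ q : Ideal (OO k t), q.IsPrime → q ≠ ⊥ → ∃ Q : Ideal ZZ, Npr Q ∧ Abv Q q) ∧
    (∀ Q : Ideal ZZ, Npr Q → ∀ a b : Ideal (OO k t), Abv Q (a * b) ↔ Abv Q a ∨ Abv Q b) ∧
    (∀ Q : Ideal ZZ, Npr Q → ∀ v : OO k t, Abv Q (sp v) ↔ MP Q (toO v)) ∧
    (∀ Q : Ideal ZZ, (AbP k t Q ↔ Npr Q ∧ Abv Q (pp k t)) ∧ (AbPb k t Q ↔ Npr Q ∧ Abv Q (ppb k t)) ∧
      ¬ (AbP k t Q ∧ AbPb k t Q) ∧ (Npr Q → MP Q 3 → AbP k t Q ∨ AbPb k t Q)) ∧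
    ∀ (Q : Ideal ZZ) (q : Ideal (OO k t)) (l : ℕ), Npr Q → Deg1 q l → Abv Q q →
      MP Q (l : Om) ∧ ∀ n : ℤ, ¬ (l : ℤ) ∣ n → UP Q (n : Om)

/-- THE FORMULAS IN `Om` (from `S_B1`, `S_B3` - `S_B7`, `S_R1`, `S_R4`: apply the injective map `io`). -/
def S_XOm : Prop :=
  ∀ (k t : ℕ) [SqT k t] (b : Ideal (OO k t)), b ≠ ⊥ →
    ((∀ z l : ℂ, l ∈ Lam b → xO b (z + l) = xO b z) ∧ (∀ z : ℂ, xO b (-z) = xO b z) ∧
      (∀ z ∈ Lam b, xO b z = -(aO b ^ 2) / 12) ∧ xO b (ptS b) = 0 ∧ aO b ^ 3 - 27 ≠ 0 ∧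
      kpO b ≠ 0 ∧ dlO b ≠ 0) ∧
    (∀ z z' : ℂ, Tor k t z → Tor k t z' → z ∉ Lam b → z' ∉ Lam b →
      (xO b z = xO b z' ↔ z - z' ∈ Lam b ∨ z + z' ∈ Lam b)) ∧
    (∀ z z' : ℂ, Tor k t z → Tor k t z' → z ∉ Lam b → z' ∉ Lam b → z + z' ∉ Lam b → z - z' ∉ Lam b →
      (xO b (z + z') + xO b (z - z')) * (xO b z - xO b z') ^ 2 =
        2 * xO b z * xO b z' * (xO b z + xO b z') + aO b ^ 2 * xO b z * xO b z' +
          aO b * (xO b z + xO b z') + 1 ∧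
      xO b (z + z') * xO b (z - z') * (xO b z - xO b z') ^ 2 =
        xO b z ^ 2 * xO b z' ^ 2 - aO b * xO b z * xO b z' - (xO b z + xO b z')) ∧
    (∀ z : ℂ, Tor k t z → 2 * z ∉ Lam b →
      xO b (2 * z) * W2 b z = xO b z ^ 4 - aO b * xO b z ^ 2 - 2 * xO b z) ∧
    (∀ z : ℂ, Tor k t z → z ∉ Lam b → z + ptS b ∉ Lam b → z - ptS b ∉ Lam b →
      xO b z ≠ 0 ∧ xO b z * xO b (z + ptS b) * xO b (z - ptS b) = -1 ∧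
      (xO b (z + ptS b) + xO b (z - ptS b)) * xO b z ^ 2 = aO b * xO b z + 1) ∧
    (∀ z ∈ Lam (ppb k t ^ 2 * b), z ∉ Lam (ppb k t * b) →
      xO b (4 * z) * (1 - xO b z) = 1 ∧ xO b (2 * z) * xO b z = xO b z - 1 ∧ xO b z ≠ 0 ∧
        xO b z ≠ 1) ∧
    (rhO b ≠ 0 ∧ rhO b ^ 3 = aO b ^ 2 + 3 * aO b + 9 ∧ aO (ppb k t * b) * rhO b = aO b + 6 ∧
      dlO (ppb k t * b) * rhO b = aO b - 3 ∧
      ∀ z : ℂ, Tor k t z → z ∉ Lam (ppb k t * b) →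
        xO (ppb k t * b) z * (rhO b ^ 2 * xO b z ^ 2) =
          xO b z ^ 3 - (aO b + 3) * xO b z ^ 2 + aO b * xO b z + 1) ∧
    (aO b * rhO (pp k t * b) = aO (pp k t * b) + 6 ∧ xO b (ptT b) = -rhO (pp k t * b) / 3 ∧
      dlO b * rhO (pp k t * b) = aO (pp k t * b) - 3 ∧ dlO b ^ 3 = aO b ^ 3 - 27 ∧
      ∀ z : ℂ, Tor k t z → z ∉ Lam (pp k t * b) → 3 * xO b z + rhO (pp k t * b) ≠ 0 ∧
        xO (pp k t * b) z * (3 * xO b z + rhO (pp k t * b)) ^ 2 =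
          xO b z * (rhO (pp k t * b) ^ 2 * xO b z ^ 2 + 3 * (aO (pp k t * b) + 3) * xO b z +
            3 * rhO (pp k t * b))) ∧
    (∀ z ∈ Lam (pp k t ^ 2 * b), z ∉ Lam (pp k t * b) →
      xO b (2 * z) ≠ xO b (4 * z) ∧ kpO b * (xO b (2 * z) - xO b (4 * z)) =
        (xO b (4 * z) - xO b (ptT b)) * (xO b (2 * z) - xO b z)) ∧
    ∀ α : OO k t, α ≠ 0 → (∀ z : ℂ, xO (sp α * b) z = xO b (toC α * z)) ∧ aO (sp α * b) = aO b ∧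
      rhO (sp α * b) = rhO b ∧ dlO (sp α * b) = dlO b ∧ kpO (sp α * b) = kpO b

/-- HALF SYSTEMS: independence, homogeneity, other curves, conjugation. -/
def S_HsP : Prop :=
  ∀ (k t : ℕ) [SqT k t] (m b : Ideal (OO k t)), m ≠ ⊥ → b ≠ ⊥ → PrI m (sN k t 2) →
    (∀ (S S' : Finset ℂ), IsHalf m b S → IsHalf m b S' → ∀ F : ℂ → Om,
      (∀ z ∈ Lam (m * b), F (-z) = F z ∧ ∀ l ∈ Lam b, F (z + l) = F z) →
      ∏ u ∈ S, F u = ∏ u ∈ S', F u ∧ ∑ u ∈ S, F u = ∑ u ∈ S', F u) ∧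
    (∀ (α : OO k t) (S : Finset ℂ), α ≠ 0 → IsHalf m (sp α * b) S →
      IsHalf m b (S.image fun u => toC α * u)) ∧
    (∀ (a : Ideal (OO k t)) (S : Finset ℂ), a ≠ ⊥ → a ⊔ m = ⊤ → IsHalf m b S → IsHalf m (a * b) S) ∧
    (∀ (v : OO k t) (S : Finset ℂ), sp v ⊔ m = ⊤ → IsHalf m b S →
      IsHalf m b (S.image fun u => toC v * u)) ∧
    ∀ (S : Finset ℂ), IsHalf m b S →
      IsHalf (cjI m) (cjI b) (S.image fun u => (starRingEnd ℂ) u)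

/-- CONJUGATION. -/
def S_QpC : Prop :=
  ∀ (k t : ℕ) [SqT k t] (c : Gal(Om/ℚ)), (∀ x : Om, io (c x) = (starRingEnd ℂ) (io x)) →
    ∀ (Q : Ideal ZZ) (b : Ideal (OO k t)) (z : ℂ), Npr Q → b ≠ ⊥ →
      (Qp (c • Q) (cjI b) ((starRingEnd ℂ) z) ↔ Qp Q b z) ∧ Npr (c • Q) ∧
      (∀ v : OO k t, c (toO v) = toO (cjO v)) ∧
      (∀ a : Ideal (OO k t), Abv (c • Q) (cjI a) ↔ Abv Q a) ∧
      (Tor k t ((starRingEnd ℂ) z) ↔ Tor k t z) ∧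
      ∀ c' : Gal(Om/ℚ), (∀ x : Om, io (c' x) = (starRingEnd ℂ) (io x)) → c' = c ∧ ∀ x : Om, c (c x) = x

end Pool.Agent.DT
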